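import Pool.Graph.R_seed8.TH70.AR.Ext
set_option autoImplicit false

/-!
# Extensions of records to orientations on which random walks are fast

`ExtT m Y p κ z` says that the records `p` can be extended to an orientation with the following shape, for
every target `v` which differs from each record in at least `m` of its wiping directions. If all the
records are wiped by the directions in which `u` agrees with `v`, then the improving directions at `u` are
those in which `u` differs from `v`. There is a set `B` of bad vertices; at a bad vertex at least `m - κ`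
improving directions lead out of `B`; at the other vertices at most `κ` improving directions lead into
`B`, and the set of improving directions differs in both ways in at most `z` elements from the set of the
directions in which `u` differs from `v`.
-/

namespace Pool.Agent.H73.RE

open Finset Pool.Agent.TH70.AR

variable {n : ℕ}

/-- the wiping directions of the record in which `v` differs from its vertex -/
def Df (r : Rec n) (v : Fin n → Bool) : Finset (Fin n) := r.W.filter fun x => v x ≠ r.w x

/-- all the records are wiped by the directions in which `u` agrees with `v` -/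
def Pw (p : List (Rec n)) (v u : Fin n → Bool) : Prop := ∀ r ∈ p, ∃ x ∈ Df r v, u x = v x

/-- the records `p` can be extended to an orientation of the shape described above -/
def ExtT (m : ℕ) (Y : Finset (Fin n)) (p : List (Rec n)) (κ z : ℕ) : Prop :=
  ∀ v : Fin n → Bool, (∀ r ∈ p, m ≤ (Df r v).card) →
    ∃ (f : (Fin n → Bool) → ℕ) (B : Finset (Fin n → Bool)), AOF f ∧
      (∀ r ∈ p, ∀ i ∈ Y, (f r.w < f (flip r.w i) ↔ i ∈ r.S)) ∧
      (∀ u, Pw p v u → u ∉ B ∧ ∀ i, (f u < f (flip u i) ↔ u i ≠ v i)) ∧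
      (∀ u ∈ B, m ≤ (Y.filter fun i => f u < f (flip u i) ∧ flip u i ∉ B).card + κ) ∧
      ∀ u, u ∉ B → (Y.filter fun i => f u < f (flip u i) ∧ flip u i ∈ B).card ≤ κ ∧
        (Y.filter fun i => f u < f (flip u i) ∧ u i = v i).card ≤ z ∧
        (Y.filter fun i => ¬ f u < f (flip u i) ∧ u i ≠ v i).card ≤ z

theorem ExtT.mono {m : ℕ} {Y : Finset (Fin n)} {p : List (Rec n)} {κ z κ' z' : ℕ}
    (h : ExtT m Y p κ z) (hκ : κ ≤ κ') (hz : z ≤ z') : ExtT m Y p κ' z' := by
  intro v hv
  obtain ⟨f, B, h1, h2, h3, h4, h5⟩ := h v hv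
  exact ⟨f, B, h1, h2, h3, fun u hu => (h4 u hu).trans (by omega), fun u hu =>
    ⟨(h5 u hu).1.trans hκ, (h5 u hu).2.1.trans hz, (h5 u hu).2.2.trans hz⟩⟩

theorem pw_up {p : List (Rec n)} {v u : Fin n → Bool} {i : Fin n} (h : Pw p v u)
    (hi : u i ≠ v i) : Pw p v (flip u i) := by
  intro r hr
  obtain ⟨x, hx, h1⟩ := h r hr
  refine ⟨x, hx, ?_⟩
  rw [flip_of_ne _ (by rintro rfl; exact hi h1)]
  exact h1

theorem flip_eq_of_ne {u v : Fin n → Bool} {i : Fin n} (h : u i ≠ v i) : flip u i i = v i := by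
  rw [flip_self]
  cases hu : u i <;> cases hv : v i <;> simp_all

theorem pw_enter {p : List (Rec n)} {v u : Fin n → Bool} {i : Fin n} (h : ¬ Pw p v u)
    (h' : Pw p v (flip u i)) : u i ≠ v i ∧ ∃ r ∈ p, i ∈ Df r v := by
  unfold Pw at h
  push Not at h
  obtain ⟨r, hr, h⟩ := h
  obtain ⟨x, hx, h1⟩ := h' r hr
  have hxi : x = i := by
    by_contra hne
    rw [flip_of_ne _ hne] at h1
    exact h x hx h1
  subst hxi
  exact ⟨h x hx, r, hr, hx⟩

theorem not_pw_self {p : List (Rec n)} {v : Fin n → Bool} {r : Rec n} (hr : r ∈ p) :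
    ¬ Pw p v r.w := by
  intro h
  obtain ⟨x, hx, h1⟩ := h r hr
  rw [Df, mem_filter] at hx
  exact hx.2 h1.symm

theorem extT_nil (m : ℕ) (Y : Finset (Fin n)) (κ z : ℕ) : ExtT m Y [] κ z := by
  intro v _
  refine ⟨fun u => agr u v, ∅, AOF.uniform v, by simp, fun u _ => ⟨by simp, fun i => ?_⟩,
    by simp, fun u _ => ⟨by simp, ?_, ?_⟩⟩
  · exact agr_flip_lt_iff
  · rw [filter_false_of_mem]
    · simp
    · rintro i - ⟨h1, h2⟩
      exact (agr_flip_lt_iff.1 h1) h2
  · rw [filter_false_of_mem]
    · simp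
    · rintro i - ⟨h1, h2⟩
      exact h1 (agr_flip_lt_iff.2 h2)

/-- one record -/
theorem extT_single (m : ℕ) {Y : Finset (Fin n)} (a : Fin n → Bool) {S : Finset (Fin n)}
    (hS : S ⊆ Y) : ExtT m Y [⟨a, S, S⟩] 0 0 := by
  classical
  intro v hv
  have hm : m ≤ (Df (⟨a, S, S⟩ : Rec n) v).card := hv _ (by simp)
  -- the target of the record
  set t : Fin n → Bool := fun i => if i ∈ S then !a i else a i with ht
  -- `P`: some coordinate of `S` has moved towards `v`
  set P : (Fin n → Bool) → Prop := fun u => ∃ i ∈ S, v i ≠ a i ∧ u i = v i with hP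
  have hPw : ∀ u, Pw [(⟨a, S, S⟩ : Rec n)] v u ↔ P u := by
    intro u
    simp only [Pw, List.mem_singleton, forall_eq, Df, mem_filter, hP]
    constructor
    · rintro ⟨x, ⟨h1, h2⟩, h3⟩
      exact ⟨x, h1, h2, h3⟩
    · rintro ⟨x, h1, h2, h3⟩
      exact ⟨x, ⟨h1, h2⟩, h3⟩
  have hta : ∀ i, t i ≠ a i ↔ i ∈ S := by
    intro i
    simp only [ht]
    split_ifs with h <;> simp [h]
  have hup : ∀ u i, P u → u i ≠ v i → P (flip u i) := fun u i h1 h2 =>
    (hPw _).1 (pw_up ((hPw _).2 h1) h2)
  have hAOF : AOF (stack P (fun u => agr u v) (fun u => agr u t)) := by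
    apply (AOF.uniform t).stackUniform hup
    rintro u ⟨j, hj, h1, h2⟩
    refine ⟨{j}, ?_, ?_, ?_⟩
    · have hjt : t j = v j := by
        simp only [ht, if_pos hj]
        cases hv : v j <;> cases ha : a j <;> simp_all
      intro z hz i hi
      rw [mem_singleton] at hi
      subst hi
      exact agr_flip_lt (by rw [hz i (by simp), hjt])
    · intro i hi
      rw [mem_singleton] at hi
      subst hi
      exact h2
    · intro z hz
      exact ⟨j, hj, h1, hz j (by simp)⟩
  have hU : ∀ u, P u → ∀ i, (stack P (fun u => agr u v) (fun u => agr u t) u <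
      stack P (fun u => agr u v) (fun u => agr u t) (flip u i) ↔ u i ≠ v i) := by
    intro u hu i
    by_cases h : P (flip u i)
    · rw [stack_lt_pos hu h]
      exact agr_flip_lt_iff
    · refine iff_of_false ?_ fun h' => h (hup u i hu h')
      have := stack_lt (g := fun u => agr u v) (f := fun u => agr u t) h hu
      omega
  refine ⟨_, univ.filter fun u => ¬ P u, hAOF, ?_, ?_, ?_, ?_⟩
  · intro r hr i _
    rw [List.mem_singleton] at hr
    subst hr
    change stack P _ _ a < stack P _ _ (flip a i) ↔ i ∈ S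
    have ha : ¬ P a := by
      rintro ⟨j, _, h1, h2⟩
      exact h1 h2.symm
    by_cases hf : P (flip a i)
    · refine iff_of_true (stack_lt ha hf) ?_
      obtain ⟨j, hj, h1, h2⟩ := hf
      by_cases hij : j = i
      · exact hij ▸ hj
      · rw [flip_of_ne _ hij] at h2
        exact absurd h2.symm h1
    · rw [stack_lt_neg ha hf, agr_flip_lt_iff, ← hta i]
      exact ne_comm
  · intro u hu
    rw [hPw] at hu
    exact ⟨by simp [hu], hU u hu⟩
  · intro u hu
    rw [mem_filter] at hu
    refine (hm.trans (card_le_card ?_)).trans (Nat.le_add_right _ _)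
    intro i hi
    rw [Df, mem_filter] at hi
    have hui : u i ≠ v i := fun h => hu.2 ⟨i, hi.1, hi.2, h⟩
    have hPi : P (flip u i) := ⟨i, hi.1, hi.2, flip_eq_of_ne hui⟩
    rw [mem_filter]
    exact ⟨hS hi.1, stack_lt hu.2 hPi, by simp [hPi]⟩
  · intro u hu
    have hPu : P u := by simpa using hu
    refine ⟨?_, ?_, ?_⟩
    · rw [filter_false_of_mem]
      · simp
      · rintro i - ⟨h1, h2⟩
        rw [mem_filter] at h2
        exact h2.2 (hup u i hPu ((hU u hPu i).1 h1))
    · rw [filter_false_of_mem]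
      · simp
      · rintro i - ⟨h1, h2⟩
        exact ((hU u hPu i).1 h1) h2
    · rw [filter_false_of_mem]
      · simp
      · rintro i - ⟨h1, h2⟩
        exact h1 ((hU u hPu i).2 h2)

/-- **Composition.** Records `p` in the coordinates `Y`, wiped by freezing `X` at `b`, followed by
records `q` in the face where `X` is frozen. -/
theorem extT_comp {m κ₁ z₁ κ₂ z₂ : ℕ} {Y X : Finset (Fin n)} {b : Fin n → Bool}
    {p q : List (Rec n)} (hp : ExtT m Y p κ₁ z₁) (hwp : ∀ r ∈ p, Wipes X b r)
    (hq : ExtT m (Y \ X) q κ₂ z₂) (hqS : ∀ r ∈ q, r.S ⊆ Y \ X) (hqW : ∀ r ∈ q, r.W ⊆ Y \ X)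
    (hqw : ∀ r ∈ q, On X b r.w) :
    ExtT m Y (p.map (cl X b) ++ q) (max (κ₁ + 1) κ₂) (max z₁ z₂ + X.card) := by
  classical
  intro v hv
  set v' : Fin n → Bool := fun x => if x ∈ X then b x else v x with hv'
  -- the wiping directions of the closed records
  have hcl : ∀ r : Rec n, Df (cl X b r) v ⊆ Df r v' := by
    intro r x hx
    simp only [Df, cl, mem_filter] at hx ⊢
    refine ⟨hx.1.1, ?_⟩
    simp only [hv']
    split_ifs with h
    · exact fun e => hx.1.2 ⟨h, e⟩
    · exact hx.2
  have hvv : ∀ r ∈ p.map (cl X b) ++ q, ∀ x ∈ Df r v, v' x = v x := by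
    intro r hr x hx
    simp only [hv']
    split_ifs with h
    · rcases List.mem_append.1 hr with hr | hr
      · obtain ⟨r, -, rfl⟩ := List.mem_map.1 hr
        simp only [Df, cl, mem_filter, not_and] at hx
        have h1 := hx.1.2 h
        have h2 := hx.2
        cases hv0 : v x <;> cases hb0 : b x <;> cases hw0 : r.w x <;> simp_all
      · rw [Df, mem_filter] at hx
        exact absurd h (mem_sdiff.1 (hqW r hr hx.1)).2
    · rfl
  obtain ⟨f₁, B₁, hf₁, hf₁S, hf₁U, hf₁B, hf₁N⟩ := hp v' fun r hr =>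
    (hv (cl X b r) (List.mem_append_left _ (List.mem_map_of_mem hr))).trans
      (card_le_card (hcl r))
  obtain ⟨f₂, B₂, hf₂, hf₂S, hf₂U, hf₂B, hf₂N⟩ := hq v fun r hr =>
    hv r (List.mem_append_right _ hr)
  obtain ⟨P, hP⟩ : ∃ P, P = Pw (p.map (cl X b) ++ q) v := ⟨_, rfl⟩
  have hP1 : ∀ u, P u → Pw p v' u := by
    intro u hu r hr
    rw [hP] at hu
    obtain ⟨x, hx, h1⟩ := hu (cl X b r) (List.mem_append_left _ (List.mem_map_of_mem hr))
    exact ⟨x, hcl r hx, h1.trans (hvv _ (List.mem_append_left _ (List.mem_map_of_mem hr)) x hx).symm⟩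
  have hP2 : ∀ u, P u → Pw q v u := by
    intro u hu r hr
    rw [hP] at hu
    exact hu r (List.mem_append_right _ hr)
  have hPX : ∀ u, On X b u → Pw p v' u := by
    intro u hu r hr
    obtain ⟨x, hx, h1, h2⟩ := hwp r hr
    have h3 : v' x = b x := by simp [hv', hx]
    refine ⟨x, ?_, (hu x hx).trans h3.symm⟩
    rw [Df, mem_filter, h3]
    exact ⟨h1, h2⟩
  have hup : ∀ u i, P u → u i ≠ v i → P (flip u i) := fun u i h1 h2 => by
    rw [hP] at h1 ⊢
    exact pw_up h1 h2
  have hent : ∀ u i, ¬ P u → P (flip u i) → u i ≠ v i ∧ v' i = v i := fun u i h1 h2 => by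
    rw [hP] at h1 h2
    obtain ⟨h3, r, hr, h4⟩ := pw_enter h1 h2
    exact ⟨h3, hvv r hr i h4⟩
  have hX : Hyp f₁ X b := by
    intro u hu i hi
    have h1 := (hf₁U u (hPX u hu)).2 i
    have h2 : v' i = b i := by simp [hv', hi]
    have h3 : ¬ f₁ u < f₁ (flip u i) := fun h => h1.1 h (by rw [h2]; exact hu i hi)
    exact lt_of_le_of_ne (by omega) (hf₁.ne u i)
  set g := stack (On X b) f₂ f₁ with hg
  have hgA : AOF g := hf₁.stackOn hf₂ hX
  -- `P` is a union of hypersinks
  have hHyp : ∀ u, P u → ∃ A, Hyp g A v ∧ On A v u ∧ ∀ z, On A v z → P z := by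
    intro u hu
    refine ⟨univ.filter fun x => u x = v x ∧ ∃ r ∈ p.map (cl X b) ++ q, x ∈ Df r v, ?_, ?_, ?_⟩
    swap
    · intro x hx
      rw [mem_filter] at hx
      exact hx.2.1
    swap
    · intro z hz
      rw [hP] at hu ⊢
      intro r hr
      obtain ⟨x, hx, h1⟩ := hu r hr
      exact ⟨x, hx, hz x (by rw [mem_filter]; exact ⟨mem_univ _, h1, r, hr, hx⟩)⟩
    intro z hz i hi
    have hPz : P z := by
      rw [hP] at hu ⊢
      intro r hr
      obtain ⟨x, hx, h1⟩ := hu r hr
      exact ⟨x, hx, hz x (by rw [mem_filter]; exact ⟨mem_univ _, h1, r, hr, hx⟩)⟩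
    have hzi := hz i hi
    rw [mem_filter] at hi
    obtain ⟨-, -, r, hr, hir⟩ := hi
    have hv'i := hvv r hr i hir
    rw [hg]
    by_cases huX : On X b z
    · by_cases hfX : On X b (flip z i)
      · rw [stack_lt_pos hfX huX]
        have h1 : ¬ f₂ z < f₂ (flip z i) := fun h =>
          ((hf₂U z (hP2 z hPz)).2 i).1 h hzi
        exact lt_of_le_of_ne (by omega) (hf₂.ne z i)
      · exact stack_lt hfX huX
    · by_cases hfX : On X b (flip z i)
      · exfalso
        have hiX : i ∈ X := by
          by_contra h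
          exact huX (by simpa [TH70.AR.flip_flip] using hfX.flip h)
        have h1 := hfX i hiX
        rw [flip_self, hzi, ← hv'i] at h1
        simp [hv', hiX] at h1
      · rw [stack_lt_neg hfX huX]
        have h1 : ¬ f₁ z < f₁ (flip z i) := fun h =>
          ((hf₁U z (hP1 z hPz)).2 i).1 h (hzi.trans hv'i.symm)
        exact lt_of_le_of_ne (by omega) (hf₁.ne z i)
  set f := stack P (fun u => agr u v) g with hf
  have hfA : AOF f := hgA.stackUniform hup hHyp
  -- the orientation of `f`
  have F1 : ∀ u, ¬ P u → On X b u → ∀ i ∈ Y,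
      (f u < f (flip u i) ↔ i ∈ Y \ X ∧ f₂ u < f₂ (flip u i)) := by
    intro u hu hX' i hi
    by_cases hiX : i ∈ X
    · have h1 : ¬ P (flip u i) := by
        intro h
        obtain ⟨h2, h3⟩ := hent u i hu h
        apply h2
        rw [← h3]
        simpa [hv', hiX] using hX' i hiX
      have h2 : ¬ On X b (flip u i) := by
        intro h
        have h3 := h i hiX
        rw [flip_self, hX' i hiX] at h3
        simp at h3
      refine iff_of_false ?_ ?_
      · rw [hf, stack_lt_neg hu h1, hg]
        have := stack_lt (g := f₂) (f := f₁) h2 hX'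
        omega
      · rintro ⟨h3, -⟩
        exact (mem_sdiff.1 h3).2 hiX
    · have h1 : On X b (flip u i) := hX'.flip hiX
      have h2 : i ∈ Y \ X := mem_sdiff.2 ⟨hi, hiX⟩
      by_cases h : P (flip u i)
      · refine iff_of_true (by rw [hf]; exact stack_lt hu h) ⟨h2, ?_⟩
        obtain ⟨h3, -⟩ := hent u i hu h
        have h4 := (hf₂U _ (hP2 _ h)).2 i
        rw [TH70.AR.flip_flip, flip_eq_of_ne h3] at h4
        have h5 : ¬ f₂ (flip u i) < f₂ u := fun h' => h4.1 h' rfl
        exact lt_of_le_of_ne (by omega) (hf₂.ne u i).symm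
      · rw [hf, stack_lt_neg hu h, hg, stack_lt_pos hX' h1]
        simp [h2]
  have F2 : ∀ u, ¬ P u → ¬ On X b u → ∀ i, (f u < f (flip u i) ↔ f₁ u < f₁ (flip u i)) := by
    intro u hu hX' i
    by_cases h : P (flip u i)
    · refine iff_of_true (by rw [hf]; exact stack_lt hu h) ?_
      obtain ⟨h3, h3'⟩ := hent u i hu h
      have h4 := (hf₁U _ (hP1 _ h)).2 i
      rw [TH70.AR.flip_flip, flip_eq_of_ne h3, h3'] at h4
      have h5 : ¬ f₁ (flip u i) < f₁ u := fun h' => h4.1 h' rfl
      exact lt_of_le_of_ne (by omega) (hf₁.ne u i).symm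
    · rw [hf, stack_lt_neg hu h, hg]
      by_cases h1 : On X b (flip u i)
      · refine iff_of_true (stack_lt hX' h1) ?_
        have hiX : i ∈ X := by
          by_contra h'
          exact hX' (by simpa [TH70.AR.flip_flip] using h1.flip h')
        have := hX _ h1 i hiX
        rwa [TH70.AR.flip_flip] at this
      · rw [stack_lt_neg hX' h1]
  have F3 : ∀ u, P u → ∀ i, (f u < f (flip u i) ↔ u i ≠ v i) := by
    intro u hu i
    by_cases h : P (flip u i)
    · rw [hf, stack_lt_pos hu h]
      exact agr_flip_lt_iff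
    · refine iff_of_false ?_ fun h' => h (hup u i hu h')
      have := stack_lt (g := fun u => agr u v) (f := g) h hu
      rw [hf]
      omega
  obtain ⟨B, hB⟩ : ∃ B : Finset (Fin n → Bool), B = univ.filter fun u =>
    ¬ P u ∧ ((On X b u ∧ u ∈ B₂) ∨ (¬ On X b u ∧ u ∈ B₁)) := ⟨_, rfl⟩
  have hB1 : ∀ u, P u → u ∉ B := by
    intro u hu h
    rw [hB, mem_filter] at h
    exact h.2.1 hu
  have hB2 : ∀ u, ¬ P u → On X b u → (u ∈ B ↔ u ∈ B₂) := by
    intro u h1 h2
    rw [hB, mem_filter]
    simp [h1, h2]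
  have hB3 : ∀ u, ¬ P u → ¬ On X b u → (u ∈ B ↔ u ∈ B₁) := by
    intro u h1 h2
    rw [hB, mem_filter]
    simp [h1, h2]
  have hB4 : ∀ u, On X b u → u ∈ B → u ∈ B₂ := by
    intro u h1 h2
    have h3 : ¬ P u := fun h => hB1 u h h2
    exact (hB2 u h3 h1).1 h2
  have hB5 : ∀ u, ¬ On X b u → u ∈ B → u ∈ B₁ := by
    intro u h1 h2
    have h3 : ¬ P u := fun h => hB1 u h h2
    exact (hB3 u h3 h1).1 h2
  -- at most one neighbour of `u` is in the face
  have hone : ∀ u, ¬ On X b u → ∃ x, ∀ i, On X b (flip u i) → i = x := by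
    intro u hu
    unfold On at hu
    push Not at hu
    obtain ⟨x, hx, hne⟩ := hu
    refine ⟨x, fun i hi => ?_⟩
    by_contra hix
    have := hi x hx
    rw [flip_of_ne _ (Ne.symm hix)] at this
    exact hne this
  refine ⟨f, B, hfA, ?_, ?_, ?_, ?_⟩
  · -- the records
    intro r hr i hi
    have hrP : ¬ P r.w := by
      rw [hP]
      exact not_pw_self hr
    rcases List.mem_append.1 hr with hr' | hr'
    · obtain ⟨r, hr'', rfl⟩ := List.mem_map.1 hr'
      have hrX : ¬ On X b r.w := by
        intro h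
        obtain ⟨x, hx, _, h2⟩ := hwp r hr''
        exact h2 (h x hx).symm
      change f r.w < f (flip r.w i) ↔ i ∈ r.S
      rw [F2 r.w hrP hrX i]
      exact hf₁S r hr'' i hi
    · rw [F1 r.w hrP (hqw r hr') i hi]
      constructor
      · rintro ⟨h1, h2⟩
        exact (hf₂S r hr' i h1).1 h2
      · intro h
        exact ⟨hqS r hr' h, (hf₂S r hr' i (hqS r hr' h)).2 h⟩
  · intro u hu
    have hPu : P u := by rw [hP]; exact hu
    exact ⟨hB1 u hPu, F3 u hPu⟩
  · -- the bad vertices
    intro u hu
    have hPu : ¬ P u := fun h => hB1 u h hu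
    by_cases huX : On X b u
    · have h1 := hf₂B u (hB4 u huX hu)
      have h2 : ((Y \ X).filter fun i => f₂ u < f₂ (flip u i) ∧ flip u i ∉ B₂).card ≤
          (Y.filter fun i => f u < f (flip u i) ∧ flip u i ∉ B).card := by
        apply card_le_card
        intro i hi
        rw [mem_filter] at hi ⊢
        have hiY := (mem_sdiff.1 hi.1)
        exact ⟨hiY.1, (F1 u hPu huX i hiY.1).2 ⟨hi.1, hi.2.1⟩,
          fun h => hi.2.2 (hB4 _ (huX.flip hiY.2) h)⟩
      have h3 : κ₂ ≤ max (κ₁ + 1) κ₂ := le_max_right _ _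
      omega
    · have h1 := hf₁B u (hB5 u huX hu)
      obtain ⟨x, hx⟩ := hone u huX
      have h2 : (Y.filter fun i => f₁ u < f₁ (flip u i) ∧ flip u i ∉ B₁).card ≤
          (insert x (Y.filter fun i => f u < f (flip u i) ∧ flip u i ∉ B)).card := by
        apply card_le_card
        intro i hi
        rw [mem_filter] at hi
        rw [mem_insert, mem_filter]
        by_cases hXi : On X b (flip u i)
        · exact Or.inl (hx i hXi)
        · exact Or.inr ⟨hi.1, (F2 u hPu huX i).2 hi.2.1, fun h => hi.2.2 (hB5 _ hXi h)⟩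
      have h3 := card_insert_le x (Y.filter fun i => f u < f (flip u i) ∧ flip u i ∉ B)
      have h4 : κ₁ + 1 ≤ max (κ₁ + 1) κ₂ := le_max_left _ _
      omega
  · -- the other vertices
    intro u hu
    have hz1 : z₁ ≤ max z₁ z₂ := le_max_left _ _
    have hz2 : z₂ ≤ max z₁ z₂ := le_max_right _ _
    have hk1 : κ₁ + 1 ≤ max (κ₁ + 1) κ₂ := le_max_left _ _
    have hk2 : κ₂ ≤ max (κ₁ + 1) κ₂ := le_max_right _ _
    by_cases hPu : P u
    · refine ⟨?_, ?_, ?_⟩
      · rw [filter_false_of_mem]
        · simp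
        · rintro i - ⟨h1, h2⟩
          exact hB1 _ (hup u i hPu ((F3 u hPu i).1 h1)) h2
      · rw [filter_false_of_mem]
        · simp
        · rintro i - ⟨h1, h2⟩
          exact ((F3 u hPu i).1 h1) h2
      · rw [filter_false_of_mem]
        · simp
        · rintro i - ⟨h1, h2⟩
          exact h1 ((F3 u hPu i).2 h2)
    · by_cases huX : On X b u
      · have huB : u ∉ B₂ := fun h => hu ((hB2 u hPu huX).2 h)
        obtain ⟨h1, h2, h3⟩ := hf₂N u huB
        refine ⟨(card_le_card ?_).trans (h1.trans hk2),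
          (card_le_card ?_).trans (h2.trans (hz2.trans (Nat.le_add_right _ _))), ?_⟩
        · intro i hi
          rw [mem_filter] at hi ⊢
          have h4 := (F1 u hPu huX i hi.1).1 hi.2.1
          exact ⟨h4.1, h4.2, hB4 _ (huX.flip (mem_sdiff.1 h4.1).2) hi.2.2⟩
        · intro i hi
          rw [mem_filter] at hi ⊢
          have h4 := (F1 u hPu huX i hi.1).1 hi.2.1
          exact ⟨h4.1, h4.2, hi.2.2⟩
        · have h4 : (Y.filter fun i => ¬ f u < f (flip u i) ∧ u i ≠ v i) ⊆
              ((Y \ X).filter fun i => ¬ f₂ u < f₂ (flip u i) ∧ u i ≠ v i) ∪ X := by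
            intro i hi
            rw [mem_filter] at hi
            rw [mem_union, mem_filter]
            by_cases hiX : i ∈ X
            · exact Or.inr hiX
            · have h5 : i ∈ Y \ X := mem_sdiff.2 ⟨hi.1, hiX⟩
              exact Or.inl ⟨h5, fun h => hi.2.1 ((F1 u hPu huX i hi.1).2 ⟨h5, h⟩), hi.2.2⟩
          have h5 := card_le_card h4
          have h6 := card_union_le
            ((Y \ X).filter fun i => ¬ f₂ u < f₂ (flip u i) ∧ u i ≠ v i) X
          omega
      · have huB : u ∉ B₁ := fun h => hu ((hB3 u hPu huX).2 h)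
        obtain ⟨h1, h2, h3⟩ := hf₁N u huB
        obtain ⟨x, hx⟩ := hone u huX
        refine ⟨?_, ?_, ?_⟩
        · have h4 : (Y.filter fun i => f u < f (flip u i) ∧ flip u i ∈ B) ⊆
              insert x (Y.filter fun i => f₁ u < f₁ (flip u i) ∧ flip u i ∈ B₁) := by
            intro i hi
            rw [mem_filter] at hi
            rw [mem_insert, mem_filter]
            by_cases hXi : On X b (flip u i)
            · exact Or.inl (hx i hXi)
            · exact Or.inr ⟨hi.1, (F2 u hPu huX i).1 hi.2.1, hB5 _ hXi hi.2.2⟩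
          have h5 := (card_le_card h4).trans (card_insert_le _ _)
          omega
        · have h4 : (Y.filter fun i => f u < f (flip u i) ∧ u i = v i) ⊆
              (Y.filter fun i => f₁ u < f₁ (flip u i) ∧ u i = v' i) ∪ X := by
            intro i hi
            rw [mem_filter] at hi
            rw [mem_union, mem_filter]
            by_cases hiX : i ∈ X
            · exact Or.inr hiX
            · have h5 : v' i = v i := by simp [hv', hiX]
              exact Or.inl ⟨hi.1, (F2 u hPu huX i).1 hi.2.1, by rw [h5]; exact hi.2.2⟩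
          have h5 := (card_le_card h4).trans (card_union_le _ _)
          omega
        · have h4 : (Y.filter fun i => ¬ f u < f (flip u i) ∧ u i ≠ v i) ⊆
              (Y.filter fun i => ¬ f₁ u < f₁ (flip u i) ∧ u i ≠ v' i) ∪ X := by
            intro i hi
            rw [mem_filter] at hi
            rw [mem_union, mem_filter]
            by_cases hiX : i ∈ X
            · exact Or.inr hiX
            · have h5 : v' i = v i := by simp [hv', hiX]
              exact Or.inl ⟨hi.1, fun h => hi.2.1 ((F2 u hPu huX i).2 h), by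
                rw [h5]; exact hi.2.2⟩
          have h5 := (card_le_card h4).trans (card_union_le _ _)
          omega

end Pool.Agent.H73.RE
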