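import Pool.Agent.H73.RE.Target
set_option autoImplicit false

/-!
# Randomised rules with bounded odds are fast on orientations of the shape `ExtT`
-/

namespace Pool.Agent.H73.RE

open Finset Pool.Agent.TH70.AR

variable {n : ℕ}

/-- The probability that a randomised rule makes at least `t` further steps from `x`, if `l` has been seen
before: `p l' i` is the probability of the direction `i` when `l'` is seen (the current vertex first). -/
noncomputable def prob (f : (Fin n → Bool) → ℕ) (p : Past n → Fin n → ℝ) :
    ℕ → Past n → (Fin n → Bool) → ℝ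
  | 0, _, _ => 1
  | t + 1, l, x => ∑ i ∈ improving f x, p (view f x :: l) i *
      prob f p t (view f x :: l) (flip x i)

/-- `p` is a randomised rule and of two improving directions neither is more than `β` times as probable as
the other one -/
def Odds (β : ℝ) (p : Past n → Fin n → ℝ) : Prop :=
  ∀ (x : Fin n → Bool) (c : ℕ) (S : Finset (Fin n)) (l : Past n), S.Nonempty →
    (∀ i ∈ S, 0 ≤ p ((x, c, S) :: l) i) ∧ ∑ i ∈ S, p ((x, c, S) :: l) i = 1 ∧
      ∀ i ∈ S, ∀ j ∈ S, p ((x, c, S) :: l) i ≤ β * p ((x, c, S) :: l) j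

/-- A potential which decreases by at least `1` on average bounds the expected number of steps. -/
theorem sum_prob_le {f : (Fin n → Bool) → ℕ} {p : Past n → Fin n → ℝ} {β : ℝ} (hp : Odds β p)
    {Ψ : (Fin n → Bool) → ℝ} (h0 : ∀ u, 0 ≤ Ψ u)
    (hΨ : ∀ (q : Fin n → ℝ) (u : Fin n → Bool), (improving f u).Nonempty →
      (∀ i ∈ improving f u, 0 ≤ q i) → ∑ i ∈ improving f u, q i = 1 →
      (∀ i ∈ improving f u, ∀ j ∈ improving f u, q i ≤ β * q j) →
      ∑ i ∈ improving f u, q i * Ψ (flip u i) ≤ Ψ u - 1) (N : ℕ) :
    ∀ (l : Past n) (u : Fin n → Bool), ∑ t ∈ range N, prob f p (t + 1) l u ≤ Ψ u := by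
  induction N with
  | zero => intro l u; simpa using h0 u
  | succ N ih =>
    intro l u
    by_cases hne : (improving f u).Nonempty
    · obtain ⟨q1, q2, q3⟩ := hp u (f u) (improving f u) l hne
      have h1 := hΨ (p (view f u :: l)) u hne q1 q2 q3
      have h2 : ∑ t ∈ range (N + 1), prob f p (t + 1) l u =
          ∑ i ∈ improving f u, p (view f u :: l) i *
            ∑ t ∈ range (N + 1), prob f p t (view f u :: l) (flip u i) := by
        simp only [prob]
        rw [sum_comm]
        exact sum_congr rfl fun i _ => (mul_sum _ _ _).symm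
      have h3 : ∀ i, ∑ t ∈ range (N + 1), prob f p t (view f u :: l) (flip u i) =
          (∑ t ∈ range N, prob f p (t + 1) (view f u :: l) (flip u i)) + 1 := by
        intro i
        rw [sum_range_succ']
        simp [prob]
      rw [h2]
      calc ∑ i ∈ improving f u, p (view f u :: l) i *
            ∑ t ∈ range (N + 1), prob f p t (view f u :: l) (flip u i)
          ≤ ∑ i ∈ improving f u, p (view f u :: l) i * (Ψ (flip u i) + 1) := by
            refine sum_le_sum fun i hi => mul_le_mul_of_nonneg_left ?_ (q1 i hi)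
            rw [h3]
            linarith [ih (view f u :: l) (flip u i)]
        _ = ∑ i ∈ improving f u, p (view f u :: l) i * Ψ (flip u i) + 1 := by
            simp only [mul_add, mul_one]
            rw [sum_add_distrib]
            congr 1
        _ ≤ Ψ u := by linarith
    · rw [not_nonempty_iff_eq_empty] at hne
      have : ∑ t ∈ range (N + 1), prob f p (t + 1) l u = 0 := by
        refine sum_eq_zero fun t _ => ?_
        simp [prob, hne]
      rw [this]
      exact h0 u

theorem mass_le {I T : Finset (Fin n)} {q : Fin n → ℝ} {β : ℝ} (h1 : ∑ i ∈ I, q i = 1)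
    (h2 : ∀ i ∈ I, ∀ j ∈ I, q i ≤ β * q j) (hT : T ⊆ I) :
    (I.card : ℝ) * ∑ i ∈ T, q i ≤ β * T.card := by
  rw [mul_sum]
  have h3 : ∀ i ∈ T, (I.card : ℝ) * q i ≤ β := by
    intro i hi
    have h4 : ∑ j ∈ I, q i ≤ ∑ j ∈ I, β * q j := sum_le_sum fun j hj => h2 i (hT hi) j hj
    rw [sum_const, nsmul_eq_mul, ← mul_sum, h1, mul_one] at h4
    exact h4
  have h4 := sum_le_sum h3
  rw [sum_const, nsmul_eq_mul] at h4
  linarith

theorem le_mass {I T : Finset (Fin n)} {q : Fin n → ℝ} {β : ℝ} (h1 : ∑ i ∈ I, q i = 1)
    (h2 : ∀ i ∈ I, ∀ j ∈ I, q i ≤ β * q j) (hT : T ⊆ I) :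
    (T.card : ℝ) ≤ β * I.card * ∑ i ∈ T, q i := by
  rw [mul_sum]
  have h3 : ∀ i ∈ T, 1 ≤ β * I.card * q i := by
    intro i hi
    have h4 : ∑ j ∈ I, q j ≤ ∑ j ∈ I, β * q i := sum_le_sum fun j hj => h2 j hj i (hT hi)
    rw [sum_const, nsmul_eq_mul, h1] at h4
    linarith
  have h4 := sum_le_sum h3
  rw [sum_const, nsmul_eq_mul, mul_one] at h4
  exact h4

/-- the number of directions in which `u` differs from `v` -/
def dist (v u : Fin n → Bool) : ℕ := (univ.filter fun i => u i ≠ v i).card

theorem dist_le (v u : Fin n → Bool) : dist v u ≤ n := by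
  unfold dist
  exact (card_le_univ _).trans (by simp)

theorem dist_flip_ne {v u : Fin n → Bool} {i : Fin n} (h : u i ≠ v i) :
    dist v (flip u i) + 1 = dist v u := by
  unfold dist
  have h1 : (univ.filter fun j => u j ≠ v j) =
      insert i (univ.filter fun j => flip u i j ≠ v j) := by
    ext j
    simp only [mem_filter, mem_univ, true_and, mem_insert]
    by_cases hj : j = i
    · subst hj; simp [h]
    · rw [flip_of_ne _ hj]; simp [hj]
  rw [h1, card_insert_of_notMem]
  simp only [mem_filter, mem_univ, true_and, not_not]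
  exact flip_eq_of_ne h

theorem dist_flip_le (v u : Fin n → Bool) (i : Fin n) : dist v (flip u i) ≤ dist v u + 1 := by
  unfold dist
  have h1 : (univ.filter fun j => flip u i j ≠ v j) ⊆
      insert i (univ.filter fun j => u j ≠ v j) := by
    intro j
    simp only [mem_filter, mem_univ, true_and, mem_insert]
    intro h
    by_cases hj : j = i
    · exact Or.inl hj
    · rw [flip_of_ne _ hj] at h; exact Or.inr h
  exact (card_le_card h1).trans (card_insert_le _ _)

/-- **Bounded odds are fast.** `v` differs from each record in at least `m` wiping directions. -/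
theorem fast {m κ z β : ℕ} {p : List (Rec n)} {v : Fin n → Bool} {f : (Fin n → Bool) → ℕ}
    {B : Finset (Fin n → Bool)} (hβ : 1 ≤ β) (hv : ∀ r ∈ p, m ≤ (Df r v).card)
    (h3 : ∀ u, Pw p v u → u ∉ B ∧ ∀ i, (f u < f (flip u i) ↔ u i ≠ v i))
    (h4 : ∀ u ∈ B, m ≤ ((univ : Finset (Fin n)).filter fun i =>
      f u < f (flip u i) ∧ flip u i ∉ B).card + κ)
    (h5 : ∀ u, u ∉ B → ((univ : Finset (Fin n)).filter fun i =>
        f u < f (flip u i) ∧ flip u i ∈ B).card ≤ κ ∧
      ((univ : Finset (Fin n)).filter fun i => f u < f (flip u i) ∧ u i = v i).card ≤ z ∧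
      ((univ : Finset (Fin n)).filter fun i => ¬ f u < f (flip u i) ∧ u i ≠ v i).card ≤ z)
    (c1 : n ≤ 6 * (m - κ)) (c2 : 2 * β * (3 * z + 15 * β * κ) ≤ m - z) (c3 : 30 * β ≤ n)
    {q : Past n → Fin n → ℝ} (hq : Odds (β : ℝ) q) (N : ℕ) (l : Past n) (u : Fin n → Bool) :
    ∑ t ∈ range N, prob f q (t + 1) l u ≤ 2 * n := by
  classical
  have hβR : (1 : ℝ) ≤ β := by exact_mod_cast hβ
  set Ψ : (Fin n → Bool) → ℝ := fun u => 3 / 2 * dist v u + if u ∈ B then 15 * (β : ℝ) else 0
    with hΨ
  have hbound : ∀ u, Ψ u ≤ 2 * n := by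
    intro u
    have h6 : (dist v u : ℝ) ≤ n := by exact_mod_cast dist_le v u
    have h7 : (30 : ℝ) * β ≤ n := by exact_mod_cast c3
    simp only [hΨ]
    split_ifs <;> linarith
  refine (sum_prob_le hq (Ψ := Ψ) (fun u => ?_) (fun q u hne q1 q2 q3 => ?_) N l u).trans
    (hbound u)
  · simp only [hΨ]
    split_ifs <;> positivity
  have hI : ∀ i, i ∈ improving f u ↔ f u < f (flip u i) := by
    intro i
    simp [improving]
  have hIc : ((improving f u).card : ℝ) ≤ n := by
    exact_mod_cast (card_le_univ (improving f u)).trans (by simp)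
  have hI0 : (0 : ℝ) < (improving f u).card := by exact_mod_cast hne.card_pos
  have hn0 : 0 < n := by
    have : (0 : ℝ) < n := hI0.trans_le hIc
    exact_mod_cast this
  by_cases hu : u ∈ B
  · -- a bad vertex
    set T := (univ : Finset (Fin n)).filter fun i => f u < f (flip u i) ∧ flip u i ∉ B with hT
    have hTI : T ⊆ improving f u := by
      intro i hi
      rw [hT, mem_filter] at hi
      exact (hI i).2 hi.2.1
    have h6 : m ≤ T.card + κ := h4 u hu
    have h7 := le_mass q2 q3 hTI
    have h8 : ∀ i ∈ improving f u, q i * Ψ (flip u i) ≤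
        q i * (Ψ u + 3 / 2) - 15 * β * (if i ∈ T then q i else 0) := by
      intro i hi
      have h9 : (dist v (flip u i) : ℝ) ≤ dist v u + 1 := by exact_mod_cast dist_flip_le v u i
      have hqi := q1 i hi
      by_cases hiT : i ∈ T
      · have h10 : flip u i ∉ B := by
          rw [hT, mem_filter] at hiT
          exact hiT.2.2
        have h11 : Ψ (flip u i) ≤ Ψ u + 3 / 2 - 15 * β := by
          simp only [hΨ, hu, h10, if_true, if_false]
          linarith
        have h12 := mul_le_mul_of_nonneg_left h11 hqi
        rw [if_pos hiT]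
        linarith
      · have h11 : Ψ (flip u i) ≤ Ψ u + 3 / 2 := by
          simp only [hΨ, hu, if_true]
          split_ifs <;> linarith
        have h12 := mul_le_mul_of_nonneg_left h11 hqi
        rw [if_neg hiT]
        linarith
    have h9 := sum_le_sum h8
    rw [sum_sub_distrib, ← sum_mul, q2, ← mul_sum, sum_ite_mem, inter_eq_right.2 hTI] at h9
    have h10 : (n : ℝ) ≤ 6 * (T.card : ℝ) := by
      have : n ≤ 6 * T.card := by omega
      exact_mod_cast this
    obtain ⟨M, hM⟩ : ∃ M : ℝ, M = ∑ i ∈ T, q i := ⟨_, rfl⟩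
    rw [← hM] at h7 h9
    have hM0 : 0 ≤ M := by
      rw [hM]
      exact sum_nonneg fun i hi => q1 i (hTI hi)
    have h11 : (n : ℝ) ≤ 6 * (β * n * M) := by
      have h12 : (β : ℝ) * (improving f u).card * M ≤ β * n * M := by
        gcongr
      linarith
    have hnR : (0 : ℝ) < n := by exact_mod_cast hn0
    have h12 : 1 ≤ 6 * (β * M) := by
      by_contra h13
      push Not at h13
      have := mul_lt_mul_of_pos_left h13 hnR
      nlinarith
    nlinarith
  · by_cases hP : Pw p v u
    · -- the uniform region
      have h6 := (h3 u hP).2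
      have h8 : ∀ i ∈ improving f u, q i * Ψ (flip u i) ≤ q i * (Ψ u - 1) := by
        intro i hi
        have h9 : u i ≠ v i := (h6 i).1 ((hI i).1 hi)
        have h10 : flip u i ∉ B := (h3 _ (pw_up hP h9)).1
        have h11 : (dist v (flip u i) : ℝ) + 1 = dist v u := by exact_mod_cast dist_flip_ne h9
        refine mul_le_mul_of_nonneg_left ?_ (q1 i hi)
        simp only [hΨ, hu, h10, if_false]
        linarith
      have h9 := sum_le_sum h8
      rw [← sum_mul, q2] at h9
      linarith
    · -- the other vertices
      obtain ⟨g1, g2, g3⟩ := h5 u hu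
      set T := (univ : Finset (Fin n)).filter fun i => f u < f (flip u i) ∧ flip u i ∈ B with hT
      set J := (univ : Finset (Fin n)).filter fun i => f u < f (flip u i) ∧ u i = v i with hJ
      have hTI : T ⊆ improving f u := by
        intro i hi
        rw [hT, mem_filter] at hi
        exact (hI i).2 hi.2.1
      have hJI : J ⊆ improving f u := by
        intro i hi
        rw [hJ, mem_filter] at hi
        exact (hI i).2 hi.2.1
      have h7 := mass_le q2 q3 hTI
      have h7' := mass_le q2 q3 hJI
      have h8 : ∀ i ∈ improving f u, q i * Ψ (flip u i) ≤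
          q i * (Ψ u - 3 / 2) + 15 * β * (if i ∈ T then q i else 0) +
            3 * (if i ∈ J then q i else 0) := by
        intro i hi
        have hqi := q1 i hi
        have h9 : Ψ (flip u i) ≤ Ψ u - 3 / 2 + (if i ∈ T then 15 * (β : ℝ) else 0) +
            (if i ∈ J then 3 else 0) := by
          have h10 : flip u i ∈ B → i ∈ T := fun h => by
            rw [hT, mem_filter]
            exact ⟨mem_univ _, (hI i).1 hi, h⟩
          have h11 : (dist v (flip u i) : ℝ) ≤ dist v u - 1 + (if i ∈ J then 2 else 0) := by
            by_cases hij : i ∈ J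
            · have : (dist v (flip u i) : ℝ) ≤ dist v u + 1 := by
                exact_mod_cast dist_flip_le v u i
              rw [if_pos hij]
              linarith
            · have h12 : u i ≠ v i := fun h => hij (by
                rw [hJ, mem_filter]
                exact ⟨mem_univ _, (hI i).1 hi, h⟩)
              have h13 : (dist v (flip u i) : ℝ) + 1 = dist v u := by
                exact_mod_cast dist_flip_ne h12
              rw [if_neg hij]
              linarith
          have h14 : (if flip u i ∈ B then 15 * (β : ℝ) else 0) ≤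
              if i ∈ T then 15 * (β : ℝ) else 0 := by
            by_cases h : flip u i ∈ B
            · rw [if_pos h, if_pos (h10 h)]
            · rw [if_neg h]
              split_ifs <;> positivity
          simp only [hΨ, hu, if_false]
          have h15 : (if i ∈ J then (3 : ℝ) else 0) = 3 / 2 * (if i ∈ J then 2 else 0) := by
            split_ifs <;> norm_num
          rw [h15]
          linarith
        have h10 := mul_le_mul_of_nonneg_left h9 hqi
        refine h10.trans (le_of_eq ?_)
        split_ifs <;> ring
      have h9 := sum_le_sum h8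
      rw [sum_add_distrib, sum_add_distrib, ← sum_mul, q2, ← mul_sum, ← mul_sum, sum_ite_mem,
        sum_ite_mem, inter_eq_right.2 hTI, inter_eq_right.2 hJI] at h9
      -- there are many improving directions
      have h10 : m ≤ (improving f u).card + z := by
        have hP' : ∃ r ∈ p, ∀ x ∈ Df r v, u x ≠ v x := by
          by_contra h
          push Not at h
          exact hP h
        obtain ⟨r, hr, h11⟩ := hP'
        have h12 : Df r v ⊆ improving f u ∪
            (univ : Finset (Fin n)).filter fun i => ¬ f u < f (flip u i) ∧ u i ≠ v i := by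
          intro x hx
          rw [mem_union, hI, mem_filter]
          by_cases h : f u < f (flip u x)
          · exact Or.inl h
          · exact Or.inr ⟨mem_univ _, h, h11 x hx⟩
        have h13 := card_le_card h12
        have h14 := card_union_le (improving f u)
          ((univ : Finset (Fin n)).filter fun i => ¬ f u < f (flip u i) ∧ u i ≠ v i)
        have h15 := hv r hr
        omega
      have h11 : 2 * β * (3 * z + 15 * β * κ) ≤ (improving f u).card := by omega
      have h12 : (2 : ℝ) * β * (3 * z + 15 * β * κ) ≤ (improving f u).card := by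
        exact_mod_cast h11
      obtain ⟨M, hM⟩ : ∃ M : ℝ, M = ∑ i ∈ T, q i := ⟨_, rfl⟩
      obtain ⟨M', hM'⟩ : ∃ M' : ℝ, M' = ∑ i ∈ J, q i := ⟨_, rfl⟩
      obtain ⟨I, hI'⟩ : ∃ I : ℝ, I = ((improving f u).card : ℝ) := ⟨_, rfl⟩
      rw [← hM] at h7 h9
      rw [← hM'] at h7' h9
      rw [← hI'] at h7 h7' h12 hI0
      have g1' : (T.card : ℝ) ≤ κ := by exact_mod_cast g1
      have g2' : (J.card : ℝ) ≤ z := by exact_mod_cast g2
      have h13 : I * (15 * β * M + 3 * M') ≤ I * (1 / 2) := by
        have e1 : I * M ≤ β * κ := h7.trans (mul_le_mul_of_nonneg_left g1' (by positivity))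
        have e2 : I * M' ≤ β * z := h7'.trans (mul_le_mul_of_nonneg_left g2' (by positivity))
        have e3 : 15 * (β : ℝ) * (I * M) ≤ 15 * β * (β * κ) :=
          mul_le_mul_of_nonneg_left e1 (by positivity)
        nlinarith
      have h14 := le_of_mul_le_mul_left h13 hI0
      linarith

end Pool.Agent.H73.RE
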