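import Pool.Agent.H73.FS.Run
import Pool.Agent.H73.RE.Rand
set_option autoImplicit false

/-!
# A deterministic rule is slow on an objective function on which the randomised rules are fast
-/

namespace Pool.Agent.H73.RE

open Finset Pool.Agent.TH70.AR Pool.Agent.TH70.AR.MS Pool.Agent.R617.SR Pool.Agent.H73.FS

variable {n : ℕ}

/-- A walk against the adversary is a run on an objective function on which all randomised rules with
bounded odds are fast. -/
theorem sep_of {n N d K m κ z β : ℕ} (hβ : 1 ≤ β) (A : Rule n) (hA : Valid d A)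
    (x₀ : Fin n → Bool)
    {q : List (Rec n)} {b : Fin n → Bool} {Q' : Finset (Fin n)}
    (hq : Walk A (fun t => (t + 1) * 2 ^ n) [] x₀ ∅ q b Q')
    (hE : ExtT m univ q κ z) (hlen : N ≤ q.length) (hK : ∀ r ∈ q, (univ \ r.S).card ≤ K)
    {v : Fin n → Bool} (hv : ∀ r ∈ q, m ≤ (Df r v).card)
    (c1 : n ≤ 6 * (m - κ)) (c2 : 2 * β * (3 * z + 15 * β * κ) ≤ m - z) (c3 : 30 * β ≤ n) :
    ∃ f : (Fin n → Bool) → ℕ, Function.Injective f ∧ AOF f ∧
      ∃ (L : ℕ) (w : ℕ → (Fin n → Bool)), w 0 = x₀ ∧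
        (∀ t < L, (improving f (w t)).Nonempty ∧
          Best f (sw (w t) (A (seen f w t)).1) (A (seen f w t)).2 (w (t + 1))) ∧
        improving f (w L) = ∅ ∧ N ≤ L ∧ (∀ t < N, n ≤ (improving f (w t)).card + K) ∧
        ∀ p : Past n → Fin n → ℝ, Odds (β : ℝ) p → ∀ (T : ℕ) (l : Past n) (x : Fin n → Bool),
          ∑ t ∈ range T, prob f p (t + 1) l x ≤ 2 * n := by
  classical
  obtain ⟨f₀, B, hf₀, hf₀S, hf₀U, hf₀B, hf₀N⟩ := hE v hv
  have hf₀S' : ∀ r ∈ q, improving f₀ r.w = r.S := by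
    intro r hr
    ext i
    rw [improving, mem_filter]
    simpa using hf₀S r hr i (mem_univ i)
  -- the visited vertices increase
  have hinc : ∀ (q : List (Rec n)) (h : Past n) (a : Fin n → Bool) (Q : Finset (Fin n)),
      Walk A (fun t => (t + 1) * 2 ^ n) h a Q q b Q' → (∀ r ∈ q, improving f₀ r.w = r.S) →
      ∀ (t : ℕ) (ht : t + 1 < q.length), f₀ (q[t]).w < f₀ (q[t + 1]).w := by
    intro q
    induction q with
    | nil => intro h a Q _ _ t ht; simp at ht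
    | cons r q ih =>
      intro h a Q hq hS t ht
      simp only [FS.Walk] at hq
      obtain ⟨h1, h2, h2', h3⟩ := hq
      cases t with
      | zero =>
        cases q with
        | nil => simp at ht
        | cons s q =>
          simp only [FS.Walk] at h3
          simp only [List.getElem_cons_zero, List.getElem_cons_succ]
          rw [h3.1, h1]
          have h4 := hA a ((h.length + 1) * 2 ^ n) r.S h h2
          apply sw_lt hf₀ _ _ (resp_nonempty h4.2.2)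
          rw [← h1, hS r List.mem_cons_self, h1]
          exact resp_sub h4.1
      | succ t =>
        simp only [List.getElem_cons_succ]
        exact ih _ _ _ h3 (fun r hr => hS r (List.mem_cons_of_mem _ hr)) t (by simpa using ht)
  set u : ℕ → (Fin n → Bool) := fun t => if ht : t < q.length then (q[t]).w else x₀ with hu
  have hut : ∀ (t : ℕ) (ht : t < q.length), u t = (q[t]).w := fun t ht => by simp [hu, ht]
  obtain ⟨f, hinj, hadj, hval⟩ := relabel hf₀ (T := q.length) u (by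
    intro t ht
    rw [hut t (by omega), hut (t + 1) ht]
    exact hinc q [] x₀ ∅ hq hf₀S' t ht)
  have himp : ∀ x, improving f x = improving f₀ x := by
    intro x
    ext i
    simp only [improving, mem_filter, hadj]
  have hAOF : AOF f := by
    have h1 : ∀ y i, f (TH70.AR.flip y i) < f y ↔ f₀ (TH70.AR.flip y i) < f₀ y := by
      intro y i
      have := hadj (TH70.AR.flip y i) i
      rwa [TH70.AR.flip_flip] at this
    intro F x
    obtain ⟨y, ⟨hy1, hy2⟩, hy3⟩ := hf₀ F x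
    exact ⟨y, ⟨hy1, fun i hi => (h1 y i).2 (hy2 i hi)⟩,
      fun z hz => hy3 z ⟨hz.1, fun i hi => (h1 z i).1 (hz.2 i hi)⟩⟩
  have hrun := run_walk (f := f) hAOF hq (fun r hr => (himp _).trans (hf₀S' r hr)) (by
    intro t ht
    rw [← hut t ht, hval t ht]
    simp)
  refine ⟨f, hinj, hAOF, ?_⟩
  -- the run
  set w : ℕ → (Fin n → Bool) := fun t => (run A f t x₀ []).1 with hw
  have hseen : ∀ t, seen f w t = view f (w t) :: (run A f t x₀ []).2 := by
    intro t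
    induction t with
    | zero => rfl
    | succ t ih => rw [seen, ih, FS.run_succ]
  have hstep : ∀ t, w (t + 1) = arg f (sw (w t) (A (seen f w t)).1) (A (seen f w t)).2 := by
    intro t
    rw [hseen]
    simp only [hw, FS.run_succ]
  have hbest : ∀ t, Best f (sw (w t) (A (seen f w t)).1) (A (seen f w t)).2 (w (t + 1)) := by
    intro t
    rw [hstep]
    exact arg_spec f _ _
  have hup : ∀ t, (improving f (w t)).Nonempty → f (w t) < f (w (t + 1)) := by
    intro t ht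
    have h1 := hA (w t) (f (w t)) (improving f (w t)) (run A f t x₀ []).2 ht
    have h2 := hbest t
    rw [hseen] at h2
    exact best_lt hAOF h1.1 h1.2.2 h2
  have hend : ∃ t, improving f (w t) = ∅ := by
    by_contra hne
    push Not at hne
    have h1 : StrictMono fun t => f (w t) := strictMono_nat_of_lt_succ fun t => hup t (hne t)
    have h2 := h1.injective
    have h3 : Function.Injective w := fun s t h => h2 (by simp only [h])
    exact not_injective_infinite_finite w h3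
  refine ⟨Nat.find hend, w, rfl, fun t ht => ⟨?_, hbest t⟩, Nat.find_spec hend, ?_, ?_, ?_⟩
  · exact nonempty_iff_ne_empty.2 (Nat.find_min hend ht)
  · by_contra hlt
    have h1 : Nat.find hend < q.length := by omega
    have h2 := hrun _ h1
    have h3 : improving f (w (Nat.find hend)) = (q[Nat.find hend]).S := by
      rw [himp, ← hf₀S' _ (List.getElem_mem h1)]
      congr 1
      exact h2.1
    rw [Nat.find_spec hend] at h3
    rw [← h3] at h2
    exact absurd h2.2 (by simp)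
  · intro t ht
    have h1 : t < q.length := by omega
    have h2 := (hrun t h1).1
    have h3 : improving f (w t) = (q[t]).S := by
      rw [himp, ← hf₀S' _ (List.getElem_mem h1)]
      congr 1
    have h4 := hK _ (List.getElem_mem h1)
    have h5 := card_le_card_sdiff_add_card (s := (univ : Finset (Fin n))) (t := (q[t]).S)
    rw [card_univ, Fintype.card_fin] at h5
    rw [h3]
    omega
  · intro p hp
    exact fast hβ hv (fun u hu => ⟨(hf₀U u hu).1, fun i => (hadj u i).trans ((hf₀U u hu).2 i)⟩)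
      (by simpa only [hadj] using hf₀B) (by simpa only [hadj] using hf₀N) c1 c2 c3 hp

/-- the choice of the parameters -/
theorem params {n k d Λ : ℕ} (hk : 1 ≤ k) (hΛ : 16 ≤ Λ) (hn2 : n < 2 ^ Λ)
    (hn : 100 * k ^ 2 * Λ ^ 3 + 20 * k * d ≤ n) :
    ∃ θ s e : ℕ, 4096 ≤ s ∧ 16 * (k * s) ≤ 19 * (k ^ 2 * Λ ^ 3) + 2 * (k * d) ∧
      1 ≤ θ ∧ d ≤ e * s ∧ G θ (θ + 1) ≤ s ∧
      2 * (2 ^ e * (2 ^ e * (256 * θ + 134)) ^ k) ≤ 2 ^ θ ∧
      2 * s * θ + d + (k + 3) * s < 100 * k ^ 2 * Λ ^ 3 + 20 * k * d := by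
  obtain ⟨r, hr⟩ : ∃ r, r = Nat.sqrt (16 * Λ * k * d) := ⟨_, rfl⟩
  have hr1 : r * r ≤ 16 * Λ * k * d := hr ▸ Nat.sqrt_le _
  have hr2 : 16 * Λ * k * d < (r + 1) * (r + 1) := hr ▸ Nat.lt_succ_sqrt _
  obtain ⟨s, hs⟩ : ∃ s, s = 16 * k * Λ ^ 2 + r + 1 := ⟨_, rfl⟩
  obtain ⟨m, hm⟩ : ∃ m, m = d / s := ⟨_, rfl⟩
  have hs0 : 0 < s := by omega
  have hm1 : m * s ≤ d := hm ▸ Nat.div_mul_le_self d s
  have hm2 : d ≤ (m + 1) * s := by
    have := Nat.lt_div_mul_add hs0 (a := d)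
    rw [← hm] at this
    nlinarith
  obtain ⟨a, ha⟩ : ∃ a, a = k ^ 2 * Λ ^ 3 := ⟨_, rfl⟩
  obtain ⟨b, hb⟩ : ∃ b, b = k * d := ⟨_, rfl⟩
  have hab : 100 * k ^ 2 * Λ ^ 3 + 20 * k * d = 100 * a + 20 * b := by
    rw [ha, hb]
    ring
  have hn' : 100 * a + 20 * b ≤ n := by
    rw [← hab]
    exact hn
  have hkΛ : k * Λ ≤ a := by
    rw [ha]
    calc k * Λ = k * Λ * 1 := by ring
      _ ≤ k * Λ * (k * Λ ^ 2) := Nat.mul_le_mul_left _ (Nat.mul_pos (by omega) (by positivity))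
      _ = k ^ 2 * Λ ^ 3 := by ring
  have hkr : k * Λ * r ≤ 2 * (a + b) := by
    have h1 : (k * Λ * r) * (k * Λ * r) ≤ (2 * (a + b)) * (2 * (a + b)) := by
      calc (k * Λ * r) * (k * Λ * r) = k ^ 2 * Λ ^ 2 * (r * r) := by ring
        _ ≤ k ^ 2 * Λ ^ 2 * (16 * Λ * k * d) := Nat.mul_le_mul_left _ hr1
        _ = 16 * (a * b) := by rw [ha, hb]; ring
        _ ≤ (2 * (a + b)) * (2 * (a + b)) := by
          zify
          nlinarith [sq_nonneg ((a : ℤ) - b)]
    exact Nat.mul_self_le_mul_self_iff.1 h1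
  have hks : k * Λ * s ≤ 19 * a + 2 * b := by
    have : k * Λ * s = 16 * a + k * Λ * r + k * Λ := by rw [hs, ha]; ring
    omega
  obtain ⟨θ, hθ⟩ : ∃ θ, θ = k * (2 * (m + 1) + 9 + Λ) := ⟨_, rfl⟩
  have hθ1 : θ ≤ k * (2 * m + 2 * Λ) := by
    rw [hθ]
    exact Nat.mul_le_mul_left _ (by omega)
  have hfin : 2 * s * θ + d + (k + 3) * s < 100 * k ^ 2 * Λ ^ 3 + 20 * k * d := by
    rw [hab]
    have h1 : 2 * s * θ ≤ 4 * b + 4 * (k * Λ * s) := by
      calc 2 * s * θ ≤ 2 * s * (k * (2 * m + 2 * Λ)) := Nat.mul_le_mul_left _ hθ1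
        _ = 4 * (k * (m * s)) + 4 * (k * Λ * s) := by ring
        _ ≤ 4 * b + 4 * (k * Λ * s) := by
          have := Nat.mul_le_mul_left k hm1
          omega
    have h2 : d ≤ b := by rw [hb]; exact Nat.le_mul_of_pos_left d (by omega)
    have h3 : (k + 3) * s ≤ k * Λ * s := by
      refine Nat.mul_le_mul_right _ ?_
      nlinarith
    have h4 : 0 < a := by rw [ha]; positivity
    omega
  have hθn : 32 * θ < n := by
    have h1 : 16 ≤ s := by
      rw [hs]
      have : 1 ≤ k * Λ ^ 2 := Nat.mul_pos (by omega) (by positivity)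
      nlinarith
    have h2 : 2 * 16 * θ ≤ 2 * s * θ := Nat.mul_le_mul_right _ (Nat.mul_le_mul_left _ h1)
    omega
  have hθpos : 1 ≤ θ := by rw [hθ]; exact Nat.mul_pos (by omega) (by omega)
  have hs4 : 4096 ≤ s := by
    rw [hs]
    have h1 : 256 ≤ Λ ^ 2 := by nlinarith
    have h2 : Λ ^ 2 ≤ k * Λ ^ 2 := Nat.le_mul_of_pos_left _ (by omega)
    nlinarith
  have hks2 : 16 * (k * s) ≤ 19 * (k ^ 2 * Λ ^ 3) + 2 * (k * d) := by
    rw [← ha, ← hb]
    refine le_trans ?_ hks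
    calc 16 * (k * s) ≤ Λ * (k * s) := Nat.mul_le_mul_right _ hΛ
      _ = k * Λ * s := by ring
  refine ⟨θ, s, m + 1, hs4, hks2, hθpos, hm2, ?_, ?_, hfin⟩
  · -- the number of steps of a wiping phase
    have h1 := G_le θ (θ + 1)
    have h2 := harmonic_le_one_add_log (θ + 1 + 1)
    have h3 : ((θ + 1 + 1 : ℕ) : ℝ) ≤ 2 ^ Λ := by
      have : θ + 1 + 1 ≤ 2 ^ Λ := by omega
      exact_mod_cast this
    have h4 : Real.log ((θ + 1 + 1 : ℕ) : ℝ) ≤ Λ * 0.6931471808 := by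
      calc Real.log ((θ + 1 + 1 : ℕ) : ℝ) ≤ Real.log ((2 : ℝ) ^ Λ) :=
            Real.log_le_log (by positivity) h3
        _ = Λ * Real.log 2 := by rw [Real.log_pow]
        _ ≤ _ := mul_le_mul_of_nonneg_left Real.log_two_lt_d9.le (by positivity)
    have hΛR : (16 : ℝ) ≤ Λ := by exact_mod_cast hΛ
    have hθR : (1 : ℝ) ≤ θ := by exact_mod_cast hθpos
    have h5 : (G θ (θ + 1) : ℝ) ≤ 4 * θ * Λ := by
      have h6 : (harmonic (θ + 1 + 1) : ℝ) - 1 ≤ Λ * 0.6931471808 := by linarith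
      have h7 := mul_le_mul_of_nonneg_left h6 (by positivity : (0 : ℝ) ≤ 4 * θ)
      push_cast at h1
      nlinarith
    have h6 : G θ (θ + 1) ≤ 4 * θ * Λ := by exact_mod_cast h5
    refine h6.trans ?_
    have h7 : 4 * θ * Λ ≤ 8 * (k * Λ * m) + 8 * (k * Λ ^ 2) := by
      calc 4 * θ * Λ ≤ 4 * (k * (2 * m + 2 * Λ)) * Λ :=
            Nat.mul_le_mul_right _ (Nat.mul_le_mul_left _ hθ1)
        _ = 8 * (k * Λ * m) + 8 * (k * Λ ^ 2) := by ring
    refine h7.trans ?_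
    have h8 : (8 * (k * Λ * m) + 8 * (k * Λ ^ 2)) * s * 2 ≤ s * s * 2 := by
      have h9 : 16 * (k * Λ * m) * s ≤ s * s := by
        calc 16 * (k * Λ * m) * s = 16 * Λ * k * (m * s) := by ring
          _ ≤ 16 * Λ * k * d := Nat.mul_le_mul_left _ hm1
          _ ≤ (r + 1) * (r + 1) := hr2.le
          _ ≤ s * s := Nat.mul_le_mul (by omega) (by omega)
      have h10 : 16 * (k * Λ ^ 2) * s ≤ s * s := Nat.mul_le_mul_right _ (by rw [hs]; nlinarith)
      calc (8 * (k * Λ * m) + 8 * (k * Λ ^ 2)) * s * 2 =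
            16 * (k * Λ * m) * s + 16 * (k * Λ ^ 2) * s := by ring
        _ ≤ s * s + s * s := Nat.add_le_add h9 h10
        _ = s * s * 2 := by ring
    exact Nat.le_of_mul_le_mul_right (Nat.le_of_mul_le_mul_right h8 (by norm_num)) hs0
  · -- the weights
    have h1 : 256 * θ + 134 ≤ 2 ^ (8 + Λ) := by
      have h2 : 134 ≤ 2 ^ (7 + Λ) := by
        calc 134 ≤ 2 ^ 8 := by norm_num
          _ ≤ 2 ^ (7 + Λ) := Nat.pow_le_pow_right (by norm_num) (by omega)
      have h3 : 256 * θ ≤ 2 ^ (7 + Λ) := by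
        rw [pow_add]
        omega
      have h4 : 2 ^ (8 + Λ) = 2 ^ (7 + Λ) + 2 ^ (7 + Λ) := by
        rw [show 8 + Λ = (7 + Λ) + 1 by omega, pow_succ]
        ring
      omega
    calc 2 * (2 ^ (m + 1) * (2 ^ (m + 1) * (256 * θ + 134)) ^ k)
        ≤ 2 * (2 ^ (m + 1) * (2 ^ (m + 1) * 2 ^ (8 + Λ)) ^ k) :=
          Nat.mul_le_mul_left _ (Nat.mul_le_mul_left _ (Nat.pow_le_pow_left
            (Nat.mul_le_mul_left _ h1) _))
      _ = 2 ^ (1 + (m + 1) + (m + 1 + (8 + Λ)) * k) := by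
          rw [← pow_add, ← pow_mul, pow_add, pow_add, pow_one]
          ring
      _ ≤ 2 ^ θ := by
          refine Nat.pow_le_pow_right (by norm_num) ?_
          rw [hθ]
          nlinarith

/-- The main result. -/
theorem separation {n k d β : ℕ} (hk : 1 ≤ k) (hβ : 1 ≤ β)
    (hn : 2 * β ^ 2 * (100 * k ^ 2 * (Nat.log 2 n + 1) ^ 3 + 20 * k * d) ≤ n)
    (A : Rule n) (hA : Valid d A) (x₀ : Fin n → Bool) :
    ∃ f : (Fin n → Bool) → ℕ, Function.Injective f ∧ AOF f ∧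
      ∃ (L : ℕ) (w : ℕ → (Fin n → Bool)), w 0 = x₀ ∧
        (∀ t < L, (improving f (w t)).Nonempty ∧
          Best f (sw (w t) (A (seen f w t)).1) (A (seen f w t)).2 (w (t + 1))) ∧
        improving f (w L) = ∅ ∧ 2 ^ k ≤ L ∧
        (∀ t < 2 ^ k, n ≤ (improving f (w t)).card +
          (100 * k ^ 2 * (Nat.log 2 n + 1) ^ 3 + 20 * k * d)) ∧
        ∀ p : Past n → Fin n → ℝ, Odds (β : ℝ) p → ∀ (T : ℕ) (l : Past n) (x : Fin n → Bool),
          ∑ t ∈ range T, prob f p (t + 1) l x ≤ 2 * n := by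
  obtain ⟨Λ, hΛ⟩ : ∃ Λ, Λ = Nat.log 2 n + 1 := ⟨_, rfl⟩
  rw [← hΛ] at hn ⊢
  have hn2 : n < 2 ^ Λ := hΛ ▸ Nat.lt_pow_succ_log_self (by norm_num) n
  have hβ2 : 1 ≤ β ^ 2 := Nat.one_le_pow _ _ (by omega)
  have hk2 : 1 ≤ k ^ 2 := Nat.one_le_pow _ _ (by omega)
  obtain ⟨H, hH⟩ : ∃ H, H = 100 * k ^ 2 * Λ ^ 3 + 20 * k * d := ⟨_, rfl⟩
  rw [← hH] at hn ⊢
  have hHn : 2 * H ≤ n := by
    refine le_trans ?_ hn
    calc 2 * H = 2 * 1 * H := by ring
      _ ≤ 2 * β ^ 2 * H := Nat.mul_le_mul_right _ (Nat.mul_le_mul_left _ hβ2)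
  have hlog : 100 * Λ ^ 3 ≤ H := by
    rw [hH]
    have : 100 * Λ ^ 3 ≤ 100 * k ^ 2 * Λ ^ 3 := Nat.mul_le_mul_right _ (by omega)
    omega
  have h1 : 100 ≤ n := by
    have h2 : 1 ≤ Λ ^ 3 := Nat.one_le_pow _ _ (by omega)
    omega
  have h2 : 7 ≤ Λ := by
    have : 6 ≤ Nat.log 2 n := Nat.le_log_of_pow_le (by norm_num) (by omega)
    omega
  have h3 : 34300 ≤ n := by
    have h4 : 7 ^ 3 ≤ Λ ^ 3 := Nat.pow_le_pow_left h2 3
    omega
  have h4 : 16 ≤ Λ := by
    have : 15 ≤ Nat.log 2 n := Nat.le_log_of_pow_le (by norm_num) (by omega)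
    omega
  have hΛ3 : 4096 ≤ Λ ^ 3 := by
    calc 4096 = 16 ^ 3 := by norm_num
      _ ≤ Λ ^ 3 := Nat.pow_le_pow_left h4 3
  obtain ⟨θ, s, e, p1, p7, p2, p3, p4, p5, p6⟩ := params hk h4 hn2 (by rw [← hH]; omega)
  rw [← hH] at p6
  have hs1 : 1 ≤ s := by omega
  obtain ⟨q, b, Q', X, hq, hE, -, -, -, -, -, hlen, hΨ, hK⟩ :=
    lw_all (n := n) (m := n / 5) (c := fun t => (t + 1) * 2 ^ n) hA hs1 p2 p3 p4 p5 k le_rfl
      univ [] x₀ ∅ (by simp) (by simpa using p6.trans_le (by omega))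
  -- the weights
  have hΨ2 : Psi s univ q ≤ (2 : ℝ) ^ θ := by
    refine hΨ.trans ?_
    have h5 : 2 ^ e * (2 ^ e * (256 * θ + 134)) ^ k ≤ 2 ^ θ := by omega
    exact_mod_cast h5
  have hx : 4 * (s * θ) ≤ n := by
    have : 2 * s * θ = 2 * (s * θ) := by ring
    omega
  have hx2 : 4096 * θ ≤ s * θ := Nat.mul_le_mul_right _ p1
  have hW : ∀ r ∈ q, n - s * θ ≤ r.W.card := by
    intro r hr
    have h5 := card_of_psi hs1 hΨ2 hr
    have h6 := card_le_card_sdiff_add_card (s := (univ : Finset (Fin n))) (t := r.W)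
    rw [card_univ, Fintype.card_fin] at h6
    omega
  have hlen2 : q.length ≤ 2 ^ θ := by
    have := (length_le_psi s univ q).trans hΨ2
    exact_mod_cast this
  obtain ⟨v, hv⟩ := exists_target (m := n / 5) hlen2 hW (by omega)
  -- the conditions on the parameters
  obtain ⟨a, ha⟩ : ∃ a, a = β ^ 2 * (k ^ 2 * Λ ^ 3) := ⟨_, rfl⟩
  obtain ⟨bb, hbb⟩ : ∃ bb, bb = β ^ 2 * (k * d) := ⟨_, rfl⟩
  obtain ⟨y, hy⟩ : ∃ y, y = β ^ 2 * (k * s) := ⟨_, rfl⟩
  have e1 : 200 * a + 40 * bb ≤ n := by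
    refine le_trans (le_of_eq ?_) hn
    rw [ha, hbb, hH]
    ring
  have e2 : 16 * y ≤ 19 * a + 2 * bb := by
    have := Nat.mul_le_mul_left (β ^ 2) p7
    calc 16 * y = β ^ 2 * (16 * (k * s)) := by rw [hy]; ring
      _ ≤ β ^ 2 * (19 * (k ^ 2 * Λ ^ 3) + 2 * (k * d)) := this
      _ = 19 * a + 2 * bb := by rw [ha, hbb]; ring
  have e3 : 4096 * (β ^ 2 * k) ≤ a := by
    rw [ha]
    calc 4096 * (β ^ 2 * k) = β ^ 2 * (k * 4096) := by ring
      _ ≤ β ^ 2 * (k ^ 2 * Λ ^ 3) := by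
        refine Nat.mul_le_mul_left _ (Nat.mul_le_mul ?_ hΛ3)
        nlinarith
  have e4 : β * k ≤ β ^ 2 * k := Nat.mul_le_mul_right _ (by nlinarith)
  have e5 : k ≤ β ^ 2 * k := Nat.le_mul_of_pos_left _ (by omega)
  have e6 : β ≤ β ^ 2 * k := by
    calc β = β * 1 := by ring
      _ ≤ β ^ 2 * k := Nat.mul_le_mul (by nlinarith) hk
  have e7 : (2 * k + 1) * s ≤ 3 * y := by
    have h5 : (2 * k + 1) * s ≤ 3 * (k * s) := by
      calc (2 * k + 1) * s ≤ (3 * k) * s := Nat.mul_le_mul_right _ (by omega)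
        _ = 3 * (k * s) := by ring
    have h6 : k * s ≤ y := by
      rw [hy]
      exact Nat.le_mul_of_pos_left _ (by omega)
    omega
  have e8 : β * ((2 * k + 1) * s) ≤ 3 * y := by
    calc β * ((2 * k + 1) * s) ≤ β * ((3 * k) * s) :=
          Nat.mul_le_mul_left _ (Nat.mul_le_mul_right _ (by omega))
      _ = 3 * (β * (k * s)) := by ring
      _ ≤ 3 * (β ^ 2 * (k * s)) :=
          Nat.mul_le_mul_left _ (Nat.mul_le_mul_right _ (by nlinarith))
      _ = 3 * y := by rw [hy]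
  have e9 : 2 * β * (3 * ((2 * k + 1) * s) + 15 * β * k) =
      6 * (β * ((2 * k + 1) * s)) + 30 * (β ^ 2 * k) := by ring
  obtain ⟨f, g1, g2, L, w, g3, g4, g5, g6, g7, g8⟩ := sep_of hβ A hA x₀ hq hE hlen
    (fun r hr => (hK r hr).trans p6.le) hv (by omega) (by rw [e9]; omega) (by omega)
  exact ⟨f, g1, g2, L, w, g3, g4, g5, g6, g7, g8⟩

end Pool.Agent.H73.RE
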