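import Pool.Agent.H73.RE.Level
set_option autoImplicit false

/-!
# The target

For few records with many wiping directions there is a vertex `v` which differs from each of them in many
of its wiping directions.
-/

namespace Pool.Agent.H73.RE

open Finset Pool.Agent.TH70.AR Pool.Agent.TH70.AR.MS Pool.Agent.R617.SR Pool.Agent.H73.FS

variable {n : ℕ}

/-- the average of `4 ^ (-|Df r v|)` over all `v` -/
theorem sum_quarter (r : Rec n) :
    ∑ v : Fin n → Bool, (1 / 4 : ℝ) ^ (Df r v).card = 2 ^ n * (5 / 8 : ℝ) ^ r.W.card := by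
  classical
  have h1 : ∀ v : Fin n → Bool, (1 / 4 : ℝ) ^ (Df r v).card =
      ∏ x, if x ∈ r.W ∧ v x ≠ r.w x then (1 / 4 : ℝ) else 1 := by
    intro v
    rw [prod_ite, prod_const_one, mul_one, prod_const]
    congr 2
    ext x
    simp [Df]
  simp_rw [h1]
  have h2 := (prod_univ_sum (fun _ : Fin n => (univ : Finset Bool))
    fun x b => if x ∈ r.W ∧ b ≠ r.w x then (1 / 4 : ℝ) else 1)
  rw [Fintype.piFinset_univ] at h2
  rw [← h2]
  have h3 : ∀ x : Fin n, (∑ b : Bool, if x ∈ r.W ∧ b ≠ r.w x then (1 / 4 : ℝ) else 1) =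
      2 * (if x ∈ r.W then (5 / 8 : ℝ) else 1) := by
    intro x
    rw [Fintype.sum_bool]
    by_cases hx : x ∈ r.W
    · cases hw : r.w x <;> simp [hx] <;> norm_num
    · simp [hx]
      norm_num
  rw [prod_congr rfl fun x _ => h3 x, prod_mul_distrib, prod_const, card_univ, Fintype.card_fin,
    prod_ite, prod_const_one, mul_one, prod_const]
  congr 3
  ext x
  simp

theorem exists_target {θ w m : ℕ} {q : List (Rec n)} (hlen : q.length ≤ 2 ^ θ)
    (hW : ∀ r ∈ q, w ≤ r.W.card) (hm : θ + 2 * m ≤ 2 * (w / 3)) :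
    ∃ v : Fin n → Bool, ∀ r ∈ q, m ≤ (Df r v).card := by
  classical
  by_contra hne
  push Not at hne
  -- the sum over all targets and all records
  have h1 : ∀ v : Fin n → Bool, (1 / 4 : ℝ) ^ m < (q.map fun r => (1 / 4 : ℝ) ^ (Df r v).card).sum := by
    intro v
    obtain ⟨r, hr, h⟩ := hne v
    have h2 : (1 / 4 : ℝ) ^ m < (1 / 4 : ℝ) ^ (Df r v).card :=
      pow_lt_pow_right_of_lt_one₀ (by norm_num) (by norm_num) h
    refine h2.trans_le ?_
    refine List.single_le_sum ?_ _ (List.mem_map.2 ⟨r, hr, rfl⟩)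
    intro y hy
    obtain ⟨r, -, rfl⟩ := List.mem_map.1 hy
    positivity
  have h2 : (2 : ℝ) ^ n * (1 / 4 : ℝ) ^ m <
      ∑ v : Fin n → Bool, (q.map fun r => (1 / 4 : ℝ) ^ (Df r v).card).sum := by
    have h3 := sum_lt_sum_of_nonempty (s := (univ : Finset (Fin n → Bool))) univ_nonempty
      fun v _ => h1 v
    rw [sum_const, card_univ, Fintype.card_fun, Fintype.card_fin, Fintype.card_bool,
      nsmul_eq_mul] at h3
    push_cast at h3
    exact h3
  have h3 : ∑ v : Fin n → Bool, (q.map fun r => (1 / 4 : ℝ) ^ (Df r v).card).sum =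
      (q.map fun r => 2 ^ n * (5 / 8 : ℝ) ^ r.W.card).sum := by
    clear h1 h2 hne hW hlen
    induction q with
    | nil => simp
    | cons r q ih =>
      simp only [List.map_cons, List.sum_cons]
      rw [sum_add_distrib, ih, sum_quarter]
  have h4 : (q.map fun r => 2 ^ n * (5 / 8 : ℝ) ^ r.W.card).sum ≤
      (2 : ℝ) ^ θ * (2 ^ n * (1 / 4) ^ (w / 3)) := by
    have h5 : ∀ y ∈ q.map fun r => 2 ^ n * (5 / 8 : ℝ) ^ r.W.card,
        y ≤ 2 ^ n * (1 / 4) ^ (w / 3) := by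
      intro y hy
      obtain ⟨r, hr, rfl⟩ := List.mem_map.1 hy
      refine mul_le_mul_of_nonneg_left ?_ (by positivity)
      have h6 : 3 * (w / 3) ≤ r.W.card := (Nat.mul_div_le w 3).trans (hW r hr)
      calc (5 / 8 : ℝ) ^ r.W.card ≤ (5 / 8 : ℝ) ^ (3 * (w / 3)) :=
            pow_le_pow_of_le_one (by norm_num) (by norm_num) h6
        _ = ((5 / 8 : ℝ) ^ 3) ^ (w / 3) := by rw [pow_mul]
        _ ≤ (1 / 4) ^ (w / 3) := by gcongr; norm_num
    have h6 := List.sum_le_card_nsmul _ _ h5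
    rw [List.length_map, nsmul_eq_mul] at h6
    refine h6.trans (mul_le_mul_of_nonneg_right ?_ (by positivity))
    exact_mod_cast hlen
  rw [h3] at h2
  have h5 := h2.trans_le h4
  have h6 : (1 / 4 : ℝ) ^ (w / 3) * 4 ^ (w / 3) = 1 := by
    rw [← mul_pow]; norm_num
  have h7 : (1 / 4 : ℝ) ^ m * 4 ^ m = 1 := by
    rw [← mul_pow]; norm_num
  have h8 : (4 : ℝ) ^ (w / 3) < 2 ^ θ * 4 ^ m := by
    have h9 : (2 : ℝ) ^ n * (1 / 4 : ℝ) ^ m * (4 ^ m * 4 ^ (w / 3)) <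
        (2 : ℝ) ^ θ * (2 ^ n * (1 / 4) ^ (w / 3)) * (4 ^ m * 4 ^ (w / 3)) :=
      mul_lt_mul_of_pos_right h5 (by positivity)
    have h10 : (2 : ℝ) ^ n * (1 / 4 : ℝ) ^ m * (4 ^ m * 4 ^ (w / 3)) =
        2 ^ n * 4 ^ (w / 3) * ((1 / 4 : ℝ) ^ m * 4 ^ m) := by ring
    have h11 : (2 : ℝ) ^ θ * (2 ^ n * (1 / 4) ^ (w / 3)) * (4 ^ m * 4 ^ (w / 3)) =
        2 ^ n * (2 ^ θ * 4 ^ m) * ((1 / 4 : ℝ) ^ (w / 3) * 4 ^ (w / 3)) := by ring
    rw [h10, h11, h6, h7, mul_one, mul_one] at h9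
    exact lt_of_mul_lt_mul_left h9 (by positivity)
  have h9 : (4 : ℕ) ^ (w / 3) < 2 ^ θ * 4 ^ m := by exact_mod_cast h8
  rw [show (4 : ℕ) = 2 ^ 2 by norm_num, ← pow_mul, ← pow_mul, ← pow_add] at h9
  have h10 := (Nat.pow_lt_pow_iff_right (by norm_num)).1 h9
  omega

/-- the number of the useless directions of a record is bounded by its weight -/
theorem card_of_psi {s θ : ℕ} (hs : 1 ≤ s) {Y : Finset (Fin n)} {q : List (Rec n)}
    (hq : Psi s Y q ≤ (2 : ℝ) ^ θ) {r : Rec n} (hr : r ∈ q) : (Y \ r.W).card ≤ s * θ := by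
  have h1 : (2 : ℝ) ^ (((Y \ r.W).card : ℝ) / s) ≤ Psi s Y q := by
    refine List.single_le_sum ?_ _ (List.mem_map.2 ⟨r, hr, rfl⟩)
    intro y hy
    obtain ⟨r, -, rfl⟩ := List.mem_map.1 hy
    positivity
  have h2 := h1.trans hq
  rw [← Real.rpow_natCast, Real.rpow_le_rpow_left_iff (by norm_num)] at h2
  have hsR : (0 : ℝ) < s := by exact_mod_cast hs
  rw [div_le_iff₀ hsR] at h2
  have h3 : ((Y \ r.W).card : ℝ) ≤ ((s * θ : ℕ) : ℝ) := by
    push_cast
    linarith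
  exact_mod_cast h3

end Pool.Agent.H73.RE
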