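import Pool.Agent.H73.FS.Wipe
import Pool.Agent.H73.RE.Ext
set_option autoImplicit false

/-!
# The wiping phase

This is `Pool.Agent.H73.FS.Wipe` with `ExtT` instead of `Ext`.
-/

namespace Pool.Agent.H73.RE

open Finset Pool.Agent.TH70.AR Pool.Agent.TH70.AR.MS Pool.Agent.R617.SR Pool.Agent.H73.FS

variable {n : ℕ} {A : Rule n} {c : ℕ → ℕ} {d m : ℕ}

/-- The records `L` can be wiped by a walk and by freezing `g` coordinates besides `Z`; the weight of the
new records is at most `2 ^ ((|Z| + g) / s) * B`, and at most `|Z| + u + g` directions are not improving at a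
new record. -/
def Goal (A : Rule n) (c : ℕ → ℕ) (m s u : ℕ) (Y Z : Finset (Fin n)) (L : List (Rec n))
    (h : Past n) (a : Fin n → Bool) (Q : Finset (Fin n)) (g : ℕ) (B : ℝ) : Prop :=
  ∃ (q : List (Rec n)) (b : Fin n → Bool) (Q' X : Finset (Fin n)),
    Walk A c h a Q q b Q' ∧ ExtT m Y q 1 g ∧ (∀ r ∈ q, r.S ⊆ Y \ Z) ∧ (∀ r ∈ q, r.W ⊆ Y) ∧
    Psi s Y q ≤ (2 : ℝ) ^ (((Z.card + g : ℕ) : ℝ) / s) * B ∧
    X ⊆ Y ∧ Z ⊆ X ∧ X.card ≤ Z.card + g ∧
    (∀ r ∈ L, Wipes X b r) ∧ (∀ r ∈ q, Wipes X b r) ∧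
    ∀ r ∈ q, (Y \ r.S).card ≤ Z.card + u + g

theorem Goal.mono {s u : ℕ} {Y Z : Finset (Fin n)} {L : List (Rec n)} {h : Past n}
    {a : Fin n → Bool} {Q : Finset (Fin n)} {g g' : ℕ} {B B' : ℝ}
    (hG : Goal A c m s u Y Z L h a Q g B) (hg : g ≤ g')
    (hB : 0 ≤ B) (hBB : B ≤ B') : Goal A c m s u Y Z L h a Q g' B' := by
  obtain ⟨q, b, Q', X, h1, h2, h3, h4, h5, h6, h7, h8, h9, h10, h11⟩ := hG
  refine ⟨q, b, Q', X, h1, h2.mono le_rfl hg, h3, h4, h5.trans ?_, h6, h7, by omega, h9, h10,
    fun r hr => (h11 r hr).trans (by omega)⟩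
  refine mul_le_mul ?_ hBB hB (by positivity)
  refine Real.rpow_le_rpow_of_exponent_le (by norm_num) ?_
  have : ((Z.card + g : ℕ) : ℝ) ≤ ((Z.card + g' : ℕ) : ℝ) := by exact_mod_cast (by omega)
  gcongr

theorem goal_nil (s u : ℕ) {Y Z : Finset (Fin n)} (h : Past n) (a : Fin n → Bool)
    (Q : Finset (Fin n)) (hZ : Z ⊆ Y)
    (g : ℕ) {B : ℝ} (hB : 0 ≤ B) : Goal A c m s u Y Z [] h a Q g B := by
  refine ⟨[], a, Q, Z, ⟨rfl, rfl⟩, extT_nil m Y 1 g, by simp, by simp, ?_, hZ, Subset.refl _, by simp,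
    by simp, by simp, by simp⟩
  rw [psi_nil]
  positivity

/-- one step of the wiping phase -/
theorem goal_step (hA : Valid d A) {s θ : ℕ} (hs : 1 ≤ s) (hθ : 1 ≤ θ) {T : ℝ}
    (hT : T ≤ (2 : ℝ) ^ (θ : ℝ)) {lam t g : ℕ} {B : ℝ} (hB : 0 ≤ B)
    (ih : ∀ (Y Z : Finset (Fin n)) (L : List (Rec n)) (h : Past n) (a : Fin n → Bool)
      (Q : Finset (Fin n)), Q.card ≤ d →
      Z ⊆ Y → Psi s Y L ≤ T →
      L.length * (2 * dd θ lam + 1) ^ t < 2 ^ lam * (2 * dd θ lam + 2) ^ t →
      Z.card + 2 * s * θ + d + g < Y.card → Goal A c m s (2 * s * θ + d) Y Z L h a Q g B)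
    (Y Z : Finset (Fin n)) (L : List (Rec n)) (h : Past n) (a : Fin n → Bool)
    (Q : Finset (Fin n)) (hQ : Q.card ≤ d)
    (hZ : Z ⊆ Y) (hL : Psi s Y L ≤ T)
    (hc : L.length * (2 * dd θ lam + 1) ^ (t + 1) < 2 ^ lam * (2 * dd θ lam + 2) ^ (t + 1))
    (hY : Z.card + 2 * s * θ + d + (g + 1) < Y.card) (hl : 2 ^ lam ≤ L.length) :
    Goal A c m s (2 * s * θ + d) Y Z L h a Q (g + 1) (B + pw d s * hh T lam) := by
  have hT0 : 0 ≤ T := (psi_nonneg s Y L).trans hL
  have hh0 := hh_nonneg hT0 lam
  have hsR : (0 : ℝ) < s := by exact_mod_cast hs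
  have hP := pw_pos d s
  obtain ⟨k, hk⟩ : ∃ k, k = dd θ lam := ⟨_, rfl⟩
  have hex := exceptional' hs hθ hT hl hL
  rw [← hk] at hc ih hex
  -- if a test wipes a large part of `L`, the rest is small enough
  have hstep : ∀ P : Rec n → Bool, L.length ≤ (2 * k + 2) * (L.filter P).length →
      (L.filter fun r => !P r).length * (2 * k + 1) ^ t < 2 ^ lam * (2 * k + 2) ^ t := by
    intro P hP
    have h1 := filter_card L P hP
    have h2 : (2 * k + 2) * (L.filter fun r => !P r).length ≤ (2 * k + 1) * L.length := by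
      nlinarith
    have h3 : (2 * k + 2) * ((L.filter fun r => !P r).length * (2 * k + 1) ^ t)
        < (2 * k + 2) * (2 ^ lam * (2 * k + 2) ^ t) := by
      calc (2 * k + 2) * ((L.filter fun r => !P r).length * (2 * k + 1) ^ t)
          = ((2 * k + 2) * (L.filter fun r => !P r).length) * (2 * k + 1) ^ t := by ring
        _ ≤ ((2 * k + 1) * L.length) * (2 * k + 1) ^ t := Nat.mul_le_mul_right _ h2
        _ = L.length * (2 * k + 1) ^ (t + 1) := by ring
        _ < 2 ^ lam * (2 * k + 2) ^ (t + 1) := hc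
        _ = (2 * k + 2) * (2 ^ lam * (2 * k + 2) ^ t) := by ring
    exact lt_of_mul_lt_mul_left h3 (Nat.zero_le _)
  by_cases hx : ∃ x ∈ Y, L.length ≤
      (2 * k + 2) * (L.filter fun r => decide (x ∈ r.W ∧ a x ≠ r.w x)).length
  · -- freeze `x` as it is
    obtain ⟨x, hxY, hx⟩ := hx
    have hZ' : insert x Z ⊆ Y := insert_subset hxY hZ
    have hZc : (insert x Z).card ≤ Z.card + 1 := card_insert_le _ _
    obtain ⟨q, b, Q', X, h1, h2, h3, h4, h5, h6, h7, h8, h9, h10, h11⟩ :=
      ih Y (insert x Z) (L.filter fun r => !decide (x ∈ r.W ∧ a x ≠ r.w x)) h a Q hQ hZ'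
        ((psi_filter s Y L _).trans hL) (hstep _ hx) (by omega)
    refine ⟨q, b, Q', X, h1, h2.mono le_rfl (Nat.le_succ g), fun r hr => ?_, h4, h5.trans ?_, h6,
      (subset_insert _ _).trans h7, by omega, fun r hr => ?_, h10,
      fun r hr => (h11 r hr).trans (by omega)⟩
    · exact (h3 r hr).trans (sdiff_subset_sdiff (Subset.refl _) (subset_insert _ _))
    · refine mul_le_mul ?_ (by nlinarith) hB (by positivity)
      refine Real.rpow_le_rpow_of_exponent_le (by norm_num) ?_
      have : (((insert x Z).card + g : ℕ) : ℝ) ≤ ((Z.card + (g + 1) : ℕ) : ℝ) := by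
        exact_mod_cast (by omega)
      gcongr
    · by_cases hr' : x ∈ r.W ∧ a x ≠ r.w x
      · refine ⟨x, h7 (mem_insert_self _ _), hr'.1, ?_⟩
        rw [(walk_fix hA h1 h3).1 x (by simp)]
        exact hr'.2
      · exact h9 r (List.mem_filter.2 ⟨hr, by
          simp only [Bool.not_eq_true', decide_eq_false_iff_not]; exact hr'⟩)
  · -- let the rule move
    push Not at hx
    set E := Y.filter fun x => k * L.length < (k + 1) * L.countP (fun r => decide (x ∉ r.W))
      with hE
    obtain ⟨hEw, hEc⟩ := hex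
    set S := Y \ (E ∪ Z ∪ Q) with hS
    have hSc : Y.card ≤ S.card + (E.card + Z.card + Q.card) := by
      have h1 := card_le_card_sdiff_add_card (s := Y) (t := E ∪ Z ∪ Q)
      rw [← hS] at h1
      have h2 := card_union_le E Z
      have h3 := card_union_le (E ∪ Z) Q
      omega
    have hSne : S.Nonempty := by
      rw [← card_pos]
      omega
    have hSY : S ⊆ Y := sdiff_subset
    have hSQ : Disjoint S Q := by
      rw [disjoint_left]
      intro x hx hxQ
      exact (mem_sdiff.1 hx).2 (mem_union_right _ hxQ)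
    obtain ⟨M, hM⟩ : ∃ M, M = A ((a, c h.length, S) :: h) := ⟨_, rfl⟩
    obtain ⟨hM1, hM2, hM3⟩ := hA a (c h.length) S h hSne
    rw [← hM] at hM1 hM2 hM3
    obtain ⟨Tm, hTm⟩ : ∃ Tm, Tm = resp S M := ⟨_, rfl⟩
    have hTS := resp_sub hM1
    obtain ⟨i, hiT⟩ := resp_nonempty hM3
    rw [← hTm] at hTS hiT
    have hiS : i ∈ S := hTS hiT
    have hiY : i ∈ Y := hSY hiS
    have hiE : i ∉ E := fun h' => (mem_sdiff.1 hiS).2 (mem_union_left _ (mem_union_left _ h'))
    have hiZ : i ∉ Z := fun h' => (mem_sdiff.1 hiS).2 (mem_union_left _ (mem_union_right _ h'))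
    have hcount : L.length ≤
        (2 * k + 2) * (L.filter fun r => decide (i ∈ r.W ∧ flip a i i ≠ r.w i)).length := by
      have h1 := count_three L a i
      have h2 := hx i hiY
      have h3 : (k + 1) * L.countP (fun r => decide (i ∉ r.W)) ≤ k * L.length := by
        by_contra h'
        exact hiE (by rw [hE, mem_filter]; exact ⟨hiY, by omega⟩)
      nlinarith
    have hYc : (Y \ {i}).card + 1 = Y.card := by
      rw [sdiff_singleton_eq_erase]
      exact card_erase_add_one hiY
    obtain ⟨q, b, Q', X, h1, h2, h3, h4, h5, h6, h7, h8, h9, h10, hun⟩ :=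
      ih (Y \ {i}) Z (L.filter fun r => !decide (i ∈ r.W ∧ flip a i i ≠ r.w i))
        ((a, c h.length, S) :: h) (sw a Tm) M.2 hM2
        (fun z hz => mem_sdiff.2 ⟨hZ hz, by
          rw [mem_singleton]; rintro rfl; exact hiZ hz⟩)
        ((psi_filter s _ L _).trans ((psi_mono sdiff_subset L).trans hL))
        (hstep _ hcount) (by omega)
    have hq' : ∀ r ∈ q, r.S ⊆ Y \ {i} := fun r hr => (h3 r hr).trans sdiff_subset
    have hfix := walk_fix hA h1 hq'
    have hsw : sw a Tm i = flip a i i := by rw [sw_mem hiT, flip_self]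
    have hbi : b i = flip a i i := (hfix.1 i (by simp)).trans hsw
    have hne : flip a i i ≠ a i := by rw [flip_self]; simp
    have hcl : [(⟨a, S, S⟩ : Rec n)].map (cl {i} (flip a i)) = [⟨a, S, S⟩] := by
      simp only [List.map_cons, List.map_nil, cl]
      congr 2
      rw [filter_true_of_mem]
      rintro x hx ⟨h1, h2⟩
      rw [mem_singleton] at h1
      subst h1
      exact hne h2
    have hYS : (Y \ S).card ≤ Z.card + (2 * s * θ + d) + (g + 1) := by
      have h11 : Y \ S ⊆ E ∪ Z ∪ Q := by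
        intro x hx
        rw [mem_sdiff] at hx
        by_contra h'
        exact hx.2 (mem_sdiff.2 ⟨hx.1, h'⟩)
      have h12 := card_le_card h11
      have h13 := card_union_le E Z
      have h14 := card_union_le (E ∪ Z) Q
      omega
    refine ⟨⟨a, S, S⟩ :: q, b, Q', insert i X, ⟨rfl, hSne, hSQ, ?_⟩, ?_, ?_, ?_, ?_, ?_, ?_, ?_,
      ?_, ?_, ?_⟩
    · change Walk A c ((a, c h.length, S) :: h) (sw a (resp S (A ((a, c h.length, S) :: h))))
        (A ((a, c h.length, S) :: h)).2 q b Q'
      rw [← hM, ← hTm]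
      exact h1
    · have := extT_comp (X := {i}) (b := flip a i) (extT_single m a hSY) (by
        intro r hr
        rw [List.mem_singleton] at hr
        subst hr
        exact ⟨i, mem_singleton_self i, hiS, hne⟩) h2 hq' (fun r hr => h4 r hr) (by
        intro r hr x hx
        rw [hfix.2 r hr x (by rw [mem_sdiff]; exact fun h' => h'.2 hx)]
        rw [mem_singleton] at hx
        rw [hx, hsw])
      rw [hcl, card_singleton] at this
      exact this.mono (by omega) (by omega)
    · intro r hr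
      rcases List.mem_cons.1 hr with rfl | hr
      · intro x hx
        rw [mem_sdiff]
        exact ⟨hSY hx, fun h' =>
          (mem_sdiff.1 hx).2 (mem_union_left _ (mem_union_right _ h'))⟩
      · exact (h3 r hr).trans (sdiff_subset_sdiff sdiff_subset (Subset.refl _))
    · intro r hr
      rcases List.mem_cons.1 hr with rfl | hr
      · exact hSY
      · exact (h4 r hr).trans sdiff_subset
    · -- the weight
      rw [psi_cons]
      change (2 : ℝ) ^ (((Y \ S).card : ℝ) / s) + _ ≤ _
      have h11 : Y \ S ⊆ E ∪ Z ∪ Q := by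
        intro x hx
        rw [mem_sdiff] at hx
        by_contra h'
        exact hx.2 (mem_sdiff.2 ⟨hx.1, h'⟩)
      have h12 : ((Y \ S).card : ℝ) ≤ Z.card + E.card + d := by
        have h12 := card_le_card h11
        have h13 := card_union_le E Z
        have h14 := card_union_le (E ∪ Z) Q
        exact_mod_cast (by omega : (Y \ S).card ≤ Z.card + E.card + d)
      have h14 : (2 : ℝ) ^ (((Y \ S).card : ℝ) / s) ≤
          (2 : ℝ) ^ (((Z.card + (g + 1) : ℕ) : ℝ) / s) * (pw d s * hh T lam) := by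
        calc (2 : ℝ) ^ (((Y \ S).card : ℝ) / s) ≤
              2 ^ (((Z.card : ℝ)) / s + ((E.card : ℝ)) / s + (d : ℝ) / s) := by
              refine Real.rpow_le_rpow_of_exponent_le (by norm_num) ?_
              rw [← add_div, ← add_div]
              gcongr
          _ = 2 ^ (((Z.card : ℝ)) / s) * (pw d s * 2 ^ (((E.card : ℝ)) / s)) := by
              rw [Real.rpow_add (by norm_num), Real.rpow_add (by norm_num), pw]
              ring
          _ ≤ _ := by
              refine mul_le_mul ?_ (mul_le_mul_of_nonneg_left hEw hP.le) (by positivity)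
                (by positivity)
              refine Real.rpow_le_rpow_of_exponent_le (by norm_num) ?_
              have : (Z.card : ℝ) ≤ ((Z.card + (g + 1) : ℕ) : ℝ) := by
                exact_mod_cast (by omega)
              gcongr
      have h15 : Psi s Y q ≤ (2 : ℝ) ^ (((1 : ℕ) : ℝ) / s) * Psi s (Y \ {i}) q := by
        have := psi_le_of (s := s) (e := 1) (Y := Y \ {i}) (Y' := Y) id q fun r _ => by
          have h11 : Y \ r.W ⊆ insert i ((Y \ {i}) \ r.W) := by
            intro x hx
            rw [mem_sdiff] at hx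
            rw [mem_insert, mem_sdiff, mem_sdiff, mem_singleton]
            by_cases hxi : x = i
            · exact Or.inl hxi
            · exact Or.inr ⟨⟨hx.1, hxi⟩, hx.2⟩
          exact (card_le_card h11).trans (card_insert_le i ((Y \ {i}) \ r.W))
        simpa using this
      have h16 : Psi s Y q ≤ (2 : ℝ) ^ (((Z.card + (g + 1) : ℕ) : ℝ) / s) * B := by
        calc Psi s Y q ≤ (2 : ℝ) ^ (((1 : ℕ) : ℝ) / s) *
              ((2 : ℝ) ^ (((Z.card + g : ℕ) : ℝ) / s) * B) :=
              h15.trans (mul_le_mul_of_nonneg_left h5 (by positivity))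
          _ = (2 : ℝ) ^ (((Z.card + (g + 1) : ℕ) : ℝ) / s) * B := by
              rw [← mul_assoc, ← Real.rpow_add (by norm_num)]
              congr 2
              push_cast
              ring
      rw [mul_add]
      linarith
    · exact insert_subset hiY (h6.trans sdiff_subset)
    · exact h7.trans (subset_insert _ _)
    · have := card_insert_le i X
      omega
    · intro r hr
      by_cases hr' : i ∈ r.W ∧ flip a i i ≠ r.w i
      · exact ⟨i, mem_insert_self _ _, hr'.1, by rw [hbi]; exact hr'.2⟩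
      · obtain ⟨x, hx1, hx2⟩ := h9 r (List.mem_filter.2 ⟨hr, by
          simp only [Bool.not_eq_true', decide_eq_false_iff_not]; exact hr'⟩)
        exact ⟨x, mem_insert_of_mem hx1, hx2⟩
    · intro r hr
      rcases List.mem_cons.1 hr with rfl | hr
      · exact ⟨i, mem_insert_self _ _, hiS, by rw [hbi]; exact hne⟩
      · obtain ⟨x, hx1, hx2⟩ := h10 r hr
        exact ⟨x, mem_insert_of_mem hx1, hx2⟩
    · intro r hr
      rcases List.mem_cons.1 hr with rfl | hr
      · exact hYS
      · have h11 : Y \ r.S ⊆ insert i ((Y \ {i}) \ r.S) := by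
          intro x hx
          rw [mem_sdiff] at hx
          rw [mem_insert, mem_sdiff, mem_sdiff, mem_singleton]
          by_cases hxi : x = i
          · exact Or.inl hxi
          · exact Or.inr ⟨⟨hx.1, hxi⟩, hx.2⟩
        have h12 := (card_le_card h11).trans (card_insert_le i ((Y \ {i}) \ r.S))
        have h13 := hun r hr
        omega

/-- **The wiping phase.** -/
theorem wipe (hA : Valid d A) {s θ : ℕ} (hs : 1 ≤ s) (hθ : 1 ≤ θ) {T : ℝ} (hT0 : 0 ≤ T)
    (hT : T ≤ (2 : ℝ) ^ (θ : ℝ)) (lam : ℕ) :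
    ∀ (t : ℕ) (Y Z : Finset (Fin n)) (L : List (Rec n)) (h : Past n) (a : Fin n → Bool)
      (Q : Finset (Fin n)), Q.card ≤ d →
      Z ⊆ Y → Psi s Y L ≤ T →
      L.length * (2 * dd θ lam + 1) ^ t < 2 ^ lam * (2 * dd θ lam + 2) ^ t →
      Z.card + 2 * s * θ + d + (t + G θ lam) < Y.card →
      Goal A c m s (2 * s * θ + d) Y Z L h a Q (t + G θ lam)
        (pw d s * (t * hh T lam + HH θ T lam)) := by
  have hP := pw_pos d s
  -- the case of few records
  have key : ∀ (lam : ℕ), (∀ (t : ℕ) (Y Z : Finset (Fin n)) (L : List (Rec n)) (h : Past n)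
      (a : Fin n → Bool) (Q : Finset (Fin n)), Q.card ≤ d → Z ⊆ Y → Psi s Y L ≤ T →
      L.length < 2 ^ lam →
      Z.card + 2 * s * θ + d + (t + G θ lam) < Y.card →
      Goal A c m s (2 * s * θ + d) Y Z L h a Q (t + G θ lam)
        (pw d s * (t * hh T lam + HH θ T lam))) →
      ∀ (t : ℕ) (Y Z : Finset (Fin n)) (L : List (Rec n)) (h : Past n) (a : Fin n → Bool)
      (Q : Finset (Fin n)), Q.card ≤ d →
      Z ⊆ Y → Psi s Y L ≤ T →
      L.length * (2 * dd θ lam + 1) ^ t < 2 ^ lam * (2 * dd θ lam + 2) ^ t →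
      Z.card + 2 * s * θ + d + (t + G θ lam) < Y.card →
      Goal A c m s (2 * s * θ + d) Y Z L h a Q (t + G θ lam)
        (pw d s * (t * hh T lam + HH θ T lam)) := by
    intro lam hlow t
    induction t with
    | zero =>
      intro Y Z L h a Q hQ hZ hL hc hY
      exact hlow 0 Y Z L h a Q hQ hZ hL (by simpa using hc) hY
    | succ t ih =>
      intro Y Z L h a Q hQ hZ hL hc hY
      by_cases hl : 2 ^ lam ≤ L.length
      · have hB : 0 ≤ pw d s * (t * hh T lam + HH θ T lam) := by
          have := hh_nonneg hT0 lam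
          have := HH_nonneg θ hT0 lam
          positivity
        refine (goal_step hA hs hθ hT hB ih Y Z L h a Q hQ hZ hL hc (by omega) hl).mono
          (by omega) ?_ ?_
        · have := hh_nonneg hT0 lam
          positivity
        · push_cast
          linarith
      · exact hlow (t + 1) Y Z L h a Q hQ hZ hL (by omega) hY
  induction lam with
  | zero =>
    refine key 0 ?_
    intro t Y Z L h a Q hQ hZ hL hc hY
    have hL0 : L = [] := by
      rw [← List.length_eq_zero_iff]
      simpa using hc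
    subst hL0
    refine goal_nil s _ h a Q hZ _ ?_
    have := hh_nonneg hT0 0
    have := HH_nonneg θ hT0 0
    positivity
  | succ lam ihl =>
    refine key (lam + 1) ?_
    intro t Y Z L h a Q hQ hZ hL hc hY
    have h0 := two_pow_mul_le (dd θ lam) 1
    rw [mul_one, pow_one] at h0
    have h1 : L.length * (2 * dd θ lam + 1) ^ (2 * dd θ lam + 1) <
        2 ^ lam * (2 * dd θ lam + 2) ^ (2 * dd θ lam + 1) := by
      calc L.length * (2 * dd θ lam + 1) ^ (2 * dd θ lam + 1)
          < 2 ^ (lam + 1) * (2 * dd θ lam + 1) ^ (2 * dd θ lam + 1) :=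
            Nat.mul_lt_mul_of_pos_right hc (by positivity)
        _ = 2 ^ lam * (2 * (2 * dd θ lam + 1) ^ (2 * dd θ lam + 1)) := by ring
        _ ≤ _ := Nat.mul_le_mul_left _ h0
    have hg : G θ (lam + 1) = G θ lam + (2 * dd θ lam + 1) := rfl
    have hH : HH θ T (lam + 1) = HH θ T lam + (2 * dd θ lam + 1 : ℕ) * hh T lam := rfl
    refine (ihl (2 * dd θ lam + 1) Y Z L h a Q hQ hZ hL h1 (by omega)).mono (by omega) ?_ ?_
    · have := hh_nonneg hT0 lam
      have := HH_nonneg θ hT0 lam
      positivity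
    · rw [hH]
      have := hh_nonneg hT0 (lam + 1)
      have h3 : (0 : ℝ) ≤ t * hh T (lam + 1) := by positivity
      refine mul_le_mul_of_nonneg_left ?_ hP.le
      linarith

end Pool.Agent.H73.RE
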